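import Mathlib
import Pool.Agent.Lib_helper27.Cyc.Order

/-!
# Exact parent systems and heights
-/

set_option autoImplicit false

namespace Pool.Agent.AA27

open SimpleGraph Classical Pool.Agent.Cyc27

/-! ## heights -/

/-- length of the shortest descending path to the base. -/
noncomputable def hgt (P : Par) (t : ℕ) : ℕ :=
  if h : 3 ≤ t then
    1 + min (hgt P (P.p t)) (hgt P (P.q t))
  else 0
termination_by t
decreasing_by
  · exact P.hp t h
  · exact P.hq t h

theorem hgt_base (P : Par) {t : ℕ} (h : ¬ 3 ≤ t) : hgt P t = 0 := by
  rw [hgt, dif_neg h]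

theorem hgt_eq (P : Par) {t : ℕ} (h : 3 ≤ t) :
    hgt P t = 1 + min (hgt P (P.p t)) (hgt P (P.q t)) := by
  rw [hgt, dif_pos h]

theorem hgt_le (P : Par) {t a : ℕ} (h : 3 ≤ t) (ha : a = P.p t ∨ a = P.q t) :
    hgt P t ≤ 1 + hgt P a := by
  rw [hgt_eq P h]
  rcases ha with rfl | rfl
  · exact Nat.add_le_add_left (min_le_left _ _) _
  · exact Nat.add_le_add_left (min_le_right _ _) _

theorem hgt_le_s (P : Par) : ∀ n i j : ℕ, i < n → j < n → i ≠ j → hgt P i + hgt P j ≤ P.s i j := by
  intro n
  induction n with
  | zero => intro i j hi; omega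
  | succ n ih =>
    have key : ∀ i j : ℕ, i = n → j < n → hgt P i + hgt P j ≤ P.s i j := by
      intro i j hi hj
      subst hi
      by_cases h3 : 3 ≤ i
      · obtain ⟨a, ha, hne, he⟩ := P.s_ex h3 hj
        have hlt := P.par_lt h3 ha
        have h1 := ih a j hlt hj hne
        have h2 := hgt_le P h3 ha
        omega
      · rw [hgt_base P h3, hgt_base P (by omega)]
        omega
    intro i j hi hj hij
    by_cases h1 : i = n
    · exact key i j h1 (by omega)
    by_cases h2 : j = n
    · have := key j i h2 (by omega)
      rw [P.s_symm j i] at this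
      omega
    · exact ih i j (by omega) (by omega) hij

theorem hgt_le_c (P : Par) {t : ℕ} (h : 3 ≤ t) : 2 * hgt P t ≤ P.c t := by
  rw [P.c_eq h, hgt_eq P h]
  have h1 := hgt_le_s P t (P.p t) (P.q t) (P.hp t h) (P.hq t h) (P.hpq t h)
  have h2 := min_le_left (hgt P (P.p t)) (hgt P (P.q t))
  have h3 := min_le_right (hgt P (P.p t)) (hgt P (P.q t))
  omega

/-- the parent of smaller height. -/
noncomputable def lp (P : Par) (t : ℕ) : ℕ :=
  if 3 ≤ t then (if hgt P (P.p t) ≤ hgt P (P.q t) then P.p t else P.q t) else t

/-- the other parent. -/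
noncomputable def up (P : Par) (t : ℕ) : ℕ :=
  if 3 ≤ t then (if hgt P (P.p t) ≤ hgt P (P.q t) then P.q t else P.p t) else t

theorem lp_up (P : Par) {t : ℕ} (h : 3 ≤ t) :
    (lp P t = P.p t ∧ up P t = P.q t) ∨ (lp P t = P.q t ∧ up P t = P.p t) := by
  unfold lp up
  rw [if_pos h, if_pos h]
  split_ifs
  · left; exact ⟨rfl, rfl⟩
  · right; exact ⟨rfl, rfl⟩

theorem lp_lt (P : Par) {t : ℕ} (h : 3 ≤ t) : lp P t < t := by
  have h1 := P.hp t h
  have h2 := P.hq t h
  rcases lp_up P h with h | h <;> omega

theorem hgt_lp (P : Par) {t : ℕ} (h : 3 ≤ t) : hgt P t = 1 + hgt P (lp P t) := by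
  rw [hgt_eq P h]
  unfold lp
  rw [if_pos h]
  split_ifs with h1
  · rw [min_eq_left h1]
  · rw [min_eq_right (by omega)]

theorem lp_base (P : Par) {t : ℕ} (h : ¬ 3 ≤ t) : lp P t = t := by
  unfold lp
  rw [if_neg h]

theorem iter_lp (P : Par) : ∀ K t : ℕ, hgt P t ≤ K → (lp P)^[K] t < 3 := by
  intro K
  induction K with
  | zero =>
    intro t ht
    by_contra hcon
    have h3 : 3 ≤ t := by simpa using hcon
    have := hgt_eq P h3
    omega
  | succ K ih =>
    intro t ht
    rw [Function.iterate_succ_apply]
    by_cases h3 : 3 ≤ t
    · have := hgt_lp P h3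
      exact ih _ (by omega)
    · rw [lp_base P h3]
      exact ih t (by rw [hgt_base P h3]; omega)

/-- no cycle of length `l` forces small heights. -/
theorem hgt_small {V : Type*} {G : SimpleGraph V} {P : Par} {m : ℕ} {f : ℕ → V}
    (R : Real G P m f) {l : ℕ} (hl : 3 ≤ l)
    (hno : ¬ ∃ (u : V) (w : G.Walk u u), w.IsCycle ∧ w.length = l) {t : ℕ} (ht : t < m) :
    hgt P t ≤ l := by
  by_contra hcon
  push Not at hcon
  have h3 : 3 ≤ t := by
    by_contra h
    rw [hgt_base P h] at hcon
    omega
  have hc := hgt_le_c P h3
  apply hno
  obtain ⟨u, hu3, hut, hu⟩ := P.exists_window (m := l - 2) (t := t) (by omega) (by omega)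
  rcases hu with hu | hu
  · obtain ⟨x, w, hw, hwl⟩ := R.exists_cycle hu3 (by omega) (e := 2) (Or.inr rfl)
    exact ⟨x, w, hw, by omega⟩
  · obtain ⟨x, w, hw, hwl⟩ := R.exists_cycle hu3 (by omega) (e := 1) (Or.inl rfl)
    exact ⟨x, w, hw, by omega⟩

/-! ## exactness -/

/-- all edges from `f i` down are edges to the parents. -/
def Exa {V : Type*} (G : SimpleGraph V) (P : Par) (m : ℕ) (f : ℕ → V) : Prop :=
  ∀ i j, 3 ≤ i → i < m → j < i → G.Adj (f i) (f j) → j = P.p i ∨ j = P.q i

variable {V : Type*} (G : SimpleGraph V) [Fintype V]

/-- tight sets are exactly realised by parent systems. -/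
theorem exists_real' (hG : Deg2 G) : ∀ n, 3 ≤ n → ∀ S : Finset V, S.card = n → S ≠ Finset.univ →
    D G S + 6 = 4 * n → ∃ (P : Par) (f : ℕ → V), Real G P n f ∧ Exa G P n f ∧
      (∀ i < n, f i ∈ S) := by
  intro n hn
  induction n, hn using Nat.le_induction with
  | base =>
    intro S hS hne hD
    obtain ⟨P, f, R, hf⟩ := exists_real G hG 3 (le_refl _) S hS hne hD
    exact ⟨P, f, R, fun i j h1 h2 => by omega, hf⟩
  | succ n hn ih =>
    intro S hS hne hD
    obtain ⟨v, hv, hd⟩ := hG S (Finset.card_pos.1 (by omega)) hne
    have hc := Finset.card_erase_of_mem hv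
    have hD2 := D_erase G hv
    have hup := D_upper G hG n (by omega) (S.erase v) (by omega) erase_ne_univ
    obtain ⟨P, f, R, E, hf⟩ := ih (S.erase v) (by omega) erase_ne_univ (by omega)
    have hdv : dg G (S.erase v) v = 2 := by
      have h2 := dg_insert G (S := S.erase v) (v := v) (u := v) (Finset.notMem_erase v S)
      rw [Finset.insert_erase hv] at h2
      simp at h2
      omega
    have himg : (Finset.range n).image f = S.erase v := by
      apply Finset.eq_of_subset_of_card_le
      · intro x hx
        obtain ⟨i, hi, rfl⟩ := Finset.mem_image.1 hx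
        exact hf i (Finset.mem_range.1 hi)
      · rw [Finset.card_image_of_injOn, Finset.card_range]
        · omega
        · intro i hi j hj hij
          exact R.inj i j (by simpa using hi) (by simpa using hj) hij
    obtain ⟨y, z, hyz, hyz2⟩ := Finset.card_eq_two.1 hdv
    have hy : y ∈ (S.erase v).filter (fun w => G.Adj v w) := by rw [hyz2]; simp
    have hz : z ∈ (S.erase v).filter (fun w => G.Adj v w) := by rw [hyz2]; simp
    rw [Finset.mem_filter] at hy hz
    obtain ⟨hy1, hy2⟩ := hy
    obtain ⟨hz1, hz2⟩ := hz
    rw [← himg, Finset.mem_image] at hy1 hz1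
    obtain ⟨i, hi, rfl⟩ := hy1
    obtain ⟨j, hj, rfl⟩ := hz1
    rw [Finset.mem_range] at hi hj
    have hij : i ≠ j := fun h => hyz (by rw [h])
    refine ⟨⟨Function.update P.p n i, Function.update P.q n j, ?_, ?_, ?_⟩, Function.update f n v, ?_, ?_, ?_⟩
    · intro l hl
      by_cases h : l = n
      · subst h; simpa using hi
      · rw [Function.update_of_ne h]; exact P.hp l hl
    · intro l hl
      by_cases h : l = n
      · subst h; simpa using hj
      · rw [Function.update_of_ne h]; exact P.hq l hl
    · intro l hl
      by_cases h : l = n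
      · subst h; simpa using hij
      · rw [Function.update_of_ne h, Function.update_of_ne h]; exact P.hpq l hl
    · refine ⟨by omega, ?_, ?_, ?_, ?_, ?_, ?_⟩
      · intro a b ha hb hab
        by_cases h1 : a = n
        · by_cases h2 : b = n
          · omega
          · rw [h1, Function.update_self, Function.update_of_ne h2] at hab
            exfalso
            have := hf b (by omega)
            rw [← hab] at this
            exact Finset.notMem_erase v S this
        · by_cases h2 : b = n
          · rw [h2, Function.update_self, Function.update_of_ne h1] at hab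
            exfalso
            have := hf a (by omega)
            rw [hab] at this
            exact Finset.notMem_erase v S this
          · rw [Function.update_of_ne h1, Function.update_of_ne h2] at hab
            exact R.inj a b (by omega) (by omega) hab
      · rw [Function.update_of_ne (by omega), Function.update_of_ne (by omega)]; exact R.a01
      · rw [Function.update_of_ne (by omega), Function.update_of_ne (by omega)]; exact R.a02
      · rw [Function.update_of_ne (by omega), Function.update_of_ne (by omega)]; exact R.a12
      · intro l hl hln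
        by_cases h : l = n
        · subst h
          simp only [Function.update_self]
          rw [Function.update_of_ne (by omega)]
          exact hy2
        · have := P.hp l hl
          simp only [Function.update_of_ne h]
          rw [Function.update_of_ne (by omega)]
          exact R.adjp l hl (by omega)
      · intro l hl hln
        by_cases h : l = n
        · subst h
          simp only [Function.update_self]
          rw [Function.update_of_ne (by omega)]
          exact hz2
        · have := P.hq l hl
          simp only [Function.update_of_ne h]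
          rw [Function.update_of_ne (by omega)]
          exact R.adjq l hl (by omega)
    · intro a b ha3 ha hba hadj
      by_cases h : a = n
      · subst h
        simp only [Function.update_self] at hadj ⊢
        rw [Function.update_of_ne (by omega)] at hadj
        have hmem : f b ∈ (S.erase v).filter (fun w => G.Adj v w) :=
          Finset.mem_filter.2 ⟨hf b hba, hadj⟩
        rw [hyz2, Finset.mem_insert, Finset.mem_singleton] at hmem
        rcases hmem with h | h
        · left; exact R.inj b i hba hi h
        · right; exact R.inj b j hba hj h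
      · simp only [Function.update_of_ne h] at hadj ⊢
        rw [Function.update_of_ne (by omega)] at hadj
        exact E a b ha3 (by omega) hba hadj
    · intro l hl
      by_cases h : l = n
      · subst h; rw [Function.update_self]; exact hv
      · rw [Function.update_of_ne h]
        exact Finset.mem_of_mem_erase (hf l (by omega))

/-- a critical graph on at least 4 vertices is an exact parent system plus a vertex of degree 3. -/
theorem exists_decomp' (hG : Deg2 G) (hE : G.edgeSet.ncard = 2 * Fintype.card V - 2)
    (hn : 4 ≤ Fintype.card V) :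
    ∃ (v : V) (P : Par) (f : ℕ → V), Real G P (Fintype.card V - 1) f ∧
      Exa G P (Fintype.card V - 1) f ∧
      (∀ i < Fintype.card V - 1, f i ≠ v) ∧ (∀ x, x ≠ v → ∃ i < Fintype.card V - 1, f i = x) ∧
      dg G Finset.univ v = 3 := by
  have hU := D_univ G
  rw [hE] at hU
  have hex : ∃ v : V, dg G Finset.univ v ≤ 3 := by
    by_contra hcon
    push Not at hcon
    have : ∑ v : V, 4 ≤ D G Finset.univ := Finset.sum_le_sum (fun v _ => hcon v)
    simp at this
    omega
  obtain ⟨v, hv⟩ := hex
  have hc : (Finset.univ.erase v).card = Fintype.card V - 1 := by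
    rw [Finset.card_erase_of_mem (Finset.mem_univ v), Finset.card_univ]
  have he := D_erase G (Finset.mem_univ v)
  have hup := D_upper G hG (Fintype.card V - 1) (by omega) (Finset.univ.erase v) hc erase_ne_univ
  obtain ⟨P, f, R, E, hf⟩ := exists_real' G hG (Fintype.card V - 1) (by omega)
    (Finset.univ.erase v) hc erase_ne_univ (by omega)
  refine ⟨v, P, f, R, E, fun i hi => Finset.ne_of_mem_erase (hf i hi), ?_, by omega⟩
  have himg : (Finset.range (Fintype.card V - 1)).image f = Finset.univ.erase v := by
    apply Finset.eq_of_subset_of_card_le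
    · intro x hx
      obtain ⟨i, hi, rfl⟩ := Finset.mem_image.1 hx
      exact hf i (Finset.mem_range.1 hi)
    · rw [Finset.card_image_of_injOn, Finset.card_range]
      · omega
      · intro i hi j hj hij
        exact R.inj i j (by simpa using hi) (by simpa using hj) hij
  intro x hx
  have : x ∈ (Finset.range (Fintype.card V - 1)).image f := by rw [himg]; simp [hx]
  obtain ⟨i, hi, rfl⟩ := Finset.mem_image.1 this
  exact ⟨i, Finset.mem_range.1 hi, rfl⟩

end Pool.Agent.AA27
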