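import Mathlib

/-!
# Few functions of bounded height

The number of functions `φ : [n] → [n]` whose `K`-th iterate maps everything into a set `B` with
`d |B| ≤ n` is at most `n ^ n / M ^ n`.
-/

set_option autoImplicit false

namespace Pool.Agent.AA27

open Finset Classical

/-- functions whose `K`-th iterate has values in `B`. -/
noncomputable def low (n K : ℕ) (B : Finset (Fin n)) : Finset (Fin n → Fin n) :=
  univ.filter (fun φ => ∀ x, φ^[K] x ∈ B)

theorem card_into (n : ℕ) (B C : Finset (Fin n)) :
    (univ.filter (fun φ : Fin n → Fin n => ∀ x ∈ C, φ x ∈ B)).card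
      = B.card ^ C.card * n ^ (n - C.card) := by
  have h : (univ.filter (fun φ : Fin n → Fin n => ∀ x ∈ C, φ x ∈ B))
      = Fintype.piFinset (fun x => if x ∈ C then B else univ) := by
    ext φ
    simp only [mem_filter, mem_univ, true_and, Fintype.mem_piFinset]
    constructor
    · intro h x
      by_cases hx : x ∈ C
      · simpa [hx] using h x hx
      · simp [hx]
    · intro h x hx
      simpa [hx] using h x
  rw [h, Fintype.card_piFinset]
  have h2 : ∀ x : Fin n, (if x ∈ C then B else univ).card = if x ∈ C then B.card else n := by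
    intro x
    split_ifs <;> simp
  rw [Finset.prod_congr rfl (fun x _ => h2 x), Finset.prod_ite, Finset.prod_const,
    Finset.prod_const]
  congr 2
  · congr 1
    ext x; simp
  · have : (univ.filter (fun x : Fin n => ¬ x ∈ C)) = Cᶜ := by
      ext x; simp
    rw [this, Finset.card_compl, Fintype.card_fin]

theorem low_bound (K : ℕ) : ∀ M : ℕ, ∃ d : ℕ, 1 ≤ d ∧ ∀ (n : ℕ), 1 ≤ n → ∀ B : Finset (Fin n),
    d * B.card ≤ n → M ^ n * (low n K B).card ≤ n ^ n := by
  induction K with
  | zero =>
    intro M
    refine ⟨2, by norm_num, ?_⟩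
    intro n hn B hB
    have : (low n 0 B).card = 0 := by
      rw [Finset.card_eq_zero]
      unfold low
      rw [Finset.filter_eq_empty_iff]
      intro φ _ h
      have hB2 : B = univ := by
        ext x
        simpa using h x
      rw [hB2] at hB
      simp at hB
      omega
    rw [this]
    simp
  | succ K ih =>
    intro M
    obtain ⟨d', hd', h'⟩ := ih (4 * (M + 1))
    refine ⟨(4 * (M + 1)) ^ d', Nat.one_le_pow _ _ (by omega), ?_⟩
    intro n hn B hB
    set q := 4 * (M + 1) with hq
    -- the pieces
    have hpiece : ∀ C : Finset (Fin n),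
        q ^ n * ((univ.filter (fun φ : Fin n → Fin n => (∀ x ∈ C, φ x ∈ B) ∧
          ∀ x, φ^[K] x ∈ C)).card) ≤ n ^ n := by
      intro C
      by_cases hC : d' * C.card ≤ n
      · refine le_trans (Nat.mul_le_mul_left _ (Finset.card_le_card ?_)) (h' n hn C hC)
        intro φ hφ
        unfold low
        simp only [mem_filter, mem_univ, true_and] at hφ ⊢
        exact hφ.2
      · push Not at hC
        have h1 : (univ.filter (fun φ : Fin n → Fin n => (∀ x ∈ C, φ x ∈ B) ∧
          ∀ x, φ^[K] x ∈ C)).card ≤ B.card ^ C.card * n ^ (n - C.card) := by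
          rw [← card_into]
          refine Finset.card_le_card ?_
          intro φ hφ
          simp only [mem_filter, mem_univ, true_and] at hφ ⊢
          exact hφ.1
        have hCn : C.card ≤ n := by
          have := Finset.card_le_univ C
          simpa using this
        calc q ^ n * _ ≤ q ^ n * (B.card ^ C.card * n ^ (n - C.card)) :=
              Nat.mul_le_mul_left _ h1
          _ = (q ^ n * B.card ^ C.card) * n ^ (n - C.card) := by ring
          _ ≤ (q ^ (d' * C.card) * B.card ^ C.card) * n ^ (n - C.card) := by
              gcongr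
              · omega
          _ = ((q ^ d' * B.card) ^ C.card) * n ^ (n - C.card) := by
              rw [mul_pow (q ^ d'), ← pow_mul]
          _ ≤ n ^ C.card * n ^ (n - C.card) := by gcongr
          _ = n ^ n := by rw [← pow_add]; congr 1; omega
    have hsub : low n (K + 1) B ⊆ (univ : Finset (Fin n)).powerset.biUnion (fun C =>
        univ.filter (fun φ : Fin n → Fin n => (∀ x ∈ C, φ x ∈ B) ∧ ∀ x, φ^[K] x ∈ C)) := by
      intro φ hφ
      unfold low at hφ
      simp only [mem_filter, mem_univ, true_and] at hφ
      rw [Finset.mem_biUnion]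
      refine ⟨univ.filter (fun x => φ x ∈ B), by simp, ?_⟩
      simp only [mem_filter, mem_univ, true_and]
      refine ⟨fun x hx => hx, fun x => ?_⟩
      have := hφ x
      rwa [Function.iterate_succ_apply'] at this
    have hcard : q ^ n * (low n (K + 1) B).card ≤ 2 ^ n * n ^ n := by
      calc q ^ n * (low n (K + 1) B).card
          ≤ q ^ n * ∑ C ∈ (univ : Finset (Fin n)).powerset,
            (univ.filter (fun φ : Fin n → Fin n => (∀ x ∈ C, φ x ∈ B) ∧
              ∀ x, φ^[K] x ∈ C)).card := by
            refine Nat.mul_le_mul_left _ ?_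
            exact le_trans (Finset.card_le_card hsub) Finset.card_biUnion_le
        _ = ∑ C ∈ (univ : Finset (Fin n)).powerset, q ^ n *
            (univ.filter (fun φ : Fin n → Fin n => (∀ x ∈ C, φ x ∈ B) ∧
              ∀ x, φ^[K] x ∈ C)).card := by rw [Finset.mul_sum]
        _ ≤ ∑ C ∈ (univ : Finset (Fin n)).powerset, n ^ n :=
            Finset.sum_le_sum (fun C _ => hpiece C)
        _ = 2 ^ n * n ^ n := by
            rw [Finset.sum_const, Finset.card_powerset, Finset.card_univ, Fintype.card_fin]
            rfl
    have hq2 : q ^ n = 2 ^ n * (2 * (M + 1)) ^ n := by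
      rw [← mul_pow]; congr 1; omega
    rw [hq2] at hcard
    have h3 : (2 * (M + 1)) ^ n * (low n (K + 1) B).card ≤ n ^ n := by
      have h2 : 0 < 2 ^ n := by positivity
      refine Nat.le_of_mul_le_mul_left ?_ h2
      calc 2 ^ n * ((2 * (M + 1)) ^ n * (low n (K + 1) B).card)
          = 2 ^ n * (2 * (M + 1)) ^ n * (low n (K + 1) B).card := by ring
        _ ≤ _ := hcard
    refine le_trans (Nat.mul_le_mul_right _ ?_) h3
    exact Nat.pow_le_pow_left (by omega) n

end Pool.Agent.AA27
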