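import Mathlib
import Pool.Agent.Lib_helper27.AA.Forest
import Pool.Agent.Lib_helper27.AA.Dec

/-!
# Few critical graphs without a cycle of length `l`
-/

set_option autoImplicit false

namespace Pool.Agent.AA27

open Finset Classical Pool.Agent.Cyc27

/-- the relation coded by `v, N, b, φ, ψ`. -/
def crel {n : ℕ} (v : Fin n) (N b : Fin 3 → Fin n) (φ ψ : Fin n → Fin n) (x y : Fin n) : Prop :=
  (x = v ∧ ∃ i, y = N i) ∨ (∃ i j, x = b i ∧ y = b j) ∨
    (x ≠ v ∧ (∀ i, x ≠ b i) ∧ (y = φ x ∨ y = ψ x))

/-- the coded graph. -/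
def dec {n : ℕ} (v : Fin n) (N b : Fin 3 → Fin n) (φ ψ : Fin n → Fin n) : SimpleGraph (Fin n) :=
  SimpleGraph.fromRel (crel v N b φ ψ)

theorem exists_code {n : ℕ} (G : SimpleGraph (Fin n)) (hG : Deg2 G)
    (hE : G.edgeSet.ncard = 2 * n - 2) (hn : 4 ≤ n) {l : ℕ} (hl : 3 ≤ l)
    (hno : ¬ ∃ (u : Fin n) (w : G.Walk u u), w.IsCycle ∧ w.length = l) :
    ∃ (v : Fin n) (N b : Fin 3 → Fin n) (φ ψ : Fin n → Fin n), G = dec v N b φ ψ ∧
      φ ∈ low n (l + 1) (univ.image b) := by
  have hcard : Fintype.card (Fin n) = n := Fintype.card_fin n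
  obtain ⟨v, P, f, R, E, hfv, hsurj, hdeg⟩ := exists_decomp' G hG (by rw [hcard]; exact hE)
    (by rw [hcard]; exact hn)
  rw [hcard] at R E hfv hsurj
  -- index of a vertex
  choose! g hg using hsurj
  have hgf : ∀ s, s < n - 1 → g (f s) = s := fun s hs =>
    R.inj _ _ (hg (f s) (hfv s hs)).1 hs (hg (f s) (hfv s hs)).2
  let idx : Fin n → ℕ := fun x => if x = v then 0 else g x
  have hidx : ∀ x, x ≠ v → idx x < n - 1 ∧ f (idx x) = x := by
    intro x hx
    have := hg x hx
    simp only [idx, if_neg hx]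
    exact this
  have hidxf : ∀ s, s < n - 1 → idx (f s) = s := by
    intro s hs
    simp only [idx, if_neg (hfv s hs)]
    exact hgf s hs
  have hidxlt : ∀ x, idx x < n - 1 := by
    intro x
    by_cases hx : x = v
    · simp only [idx, if_pos hx]; omega
    · exact (hidx x hx).1
  have hlplt : ∀ s, s < n - 1 → lp P s < n - 1 := by
    intro s hs
    by_cases h3 : 3 ≤ s
    · have := lp_lt P h3; omega
    · rw [lp_base P h3]; exact hs
  -- neighbours of v
  have hN : ∃ N : Fin 3 → Fin n, ∀ y, G.Adj v y ↔ ∃ i, y = N i := by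
    have h3 : (univ.filter (fun w => G.Adj v w)).card = 3 := hdeg
    have e := (univ.filter (fun w => G.Adj v w)).equivFinOfCardEq h3
    refine ⟨fun i => (e.symm i : Fin n), fun y => ?_⟩
    constructor
    · intro h
      have hy : y ∈ univ.filter (fun w => G.Adj v w) := by simpa using h
      exact ⟨e ⟨y, hy⟩, by simp⟩
    · rintro ⟨i, rfl⟩
      exact (Finset.mem_filter.1 (e.symm i).2).2
  obtain ⟨N, hN⟩ := hN
  refine ⟨v, N, fun i => f i, fun x => f (lp P (idx x)), fun x => f (up P (idx x)), ?_, ?_⟩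
  · ext x y
    have hdecAdj : (dec v N (fun i : Fin 3 => f i) (fun x => f (lp P (idx x)))
        (fun x => f (up P (idx x)))).Adj x y ↔ x ≠ y ∧
        (crel v N (fun i : Fin 3 => f i) (fun x => f (lp P (idx x))) (fun x => f (up P (idx x))) x y ∨
         crel v N (fun i : Fin 3 => f i) (fun x => f (lp P (idx x))) (fun x => f (up P (idx x))) y x) := by
      unfold dec
      rw [SimpleGraph.fromRel_adj]
    rw [hdecAdj]
    -- from relation to adjacency
    have hback : ∀ x y, x ≠ y → crel v N (fun i : Fin 3 => f i) (fun x => f (lp P (idx x)))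
        (fun x => f (up P (idx x))) x y → G.Adj x y := by
      intro x y hxy h
      rcases h with ⟨rfl, h⟩ | ⟨i, j, rfl, rfl⟩ | ⟨hxv, hb, h⟩
      · exact (hN y).2 h
      · exact R.adj3 i.2 j.2 (fun h => hxy (by simp only [h]))
      · obtain ⟨h1, h2⟩ := hidx x hxv
        have h3 : 3 ≤ idx x := by
          by_contra hcon
          exact hb ⟨idx x, by omega⟩ h2.symm
        have hp := R.adjp _ h3 h1
        have hq := R.adjq _ h3 h1
        rw [h2] at hp hq
        rcases lp_up P h3 with ⟨e1, e2⟩ | ⟨e1, e2⟩ <;> rcases h with h | h <;>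
          rw [h] <;> simp only [e1, e2] <;> assumption
    -- from adjacency to relation, descending direction
    have hforw : ∀ s t, s < n - 1 → t < s → G.Adj (f s) (f t) →
        crel v N (fun i : Fin 3 => f i) (fun x => f (lp P (idx x))) (fun x => f (up P (idx x)))
          (f s) (f t) := by
      intro s t hs hts hadj
      by_cases h3 : 3 ≤ s
      · right; right
        refine ⟨hfv s hs, ?_, ?_⟩
        · intro i h
          have := R.inj s i hs (by have := i.2; omega) h
          omega
        · have := E s t h3 hs hts hadj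
          simp only [hidxf s hs]
          rcases lp_up P h3 with ⟨e1, e2⟩ | ⟨e1, e2⟩ <;> rcases this with h | h
          · left; rw [e1, h]
          · right; rw [e2, h]
          · right; rw [e2, h]
          · left; rw [e1, h]
      · right; left
        exact ⟨⟨s, by omega⟩, ⟨t, by omega⟩, rfl, rfl⟩
    constructor
    · intro hadj
      refine ⟨hadj.ne, ?_⟩
      by_cases hx : x = v
      · left; left
        subst hx
        exact ⟨rfl, (hN y).1 hadj⟩
      by_cases hy : y = v
      · right; left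
        subst hy
        exact ⟨rfl, (hN x).1 hadj.symm⟩
      obtain ⟨hs, hfs⟩ := hidx x hx
      obtain ⟨ht, hft⟩ := hidx y hy
      rcases Nat.lt_trichotomy (idx x) (idx y) with h | h | h
      · right
        have := hforw (idx y) (idx x) ht h (by rw [hfs, hft]; exact hadj.symm)
        rwa [hfs, hft] at this
      · exfalso
        apply hadj.ne
        rw [← hfs, ← hft, h]
      · left
        have := hforw (idx x) (idx y) hs h (by rw [hfs, hft]; exact hadj)
        rwa [hfs, hft] at this
    · rintro ⟨hxy, h | h⟩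
      · exact hback x y hxy h
      · exact (hback y x hxy.symm h).symm
  · unfold low
    rw [mem_filter]
    refine ⟨mem_univ _, fun x => ?_⟩
    -- the iterate
    have hit : ∀ K x, (fun x => f (lp P (idx x)))^[K + 1] x = f ((lp P)^[K + 1] (idx x)) ∧
        (lp P)^[K + 1] (idx x) < n - 1 := by
      intro K
      induction K with
      | zero =>
        intro x
        exact ⟨rfl, hlplt _ (hidxlt x)⟩
      | succ K ih =>
        intro x
        obtain ⟨h1, h2⟩ := ih x
        have e1 : (fun x => f (lp P (idx x)))^[K + 1 + 1] x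
            = f (lp P (idx ((fun x => f (lp P (idx x)))^[K + 1] x))) :=
          Function.iterate_succ_apply' _ _ _
        have e2 : (lp P)^[K + 1 + 1] (idx x) = lp P ((lp P)^[K + 1] (idx x)) :=
          Function.iterate_succ_apply' _ _ _
        rw [e1, h1, hidxf _ h2, e2]
        exact ⟨rfl, hlplt _ h2⟩
    have hh : hgt P (idx x) ≤ l + 1 := by
      have := hgt_small R hl hno (hidxlt x)
      omega
    have h3 := iter_lp P (l + 1) (idx x) hh
    rw [(hit l x).1, mem_image]
    exact ⟨⟨_, h3⟩, mem_univ _, rfl⟩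

/-- the critical graphs on `Fin n`. -/
def Crit {V : Type*} [Fintype V] (G : SimpleGraph V) : Prop :=
  G.edgeSet.ncard = 2 * Fintype.card V - 2 ∧
    ∀ S : Set V, S.Nonempty → S ≠ Set.univ → ∃ v ∈ S, {w : V | w ∈ S ∧ G.Adj v w}.ncard < 3

theorem Crit.deg2 {V : Type*} [Fintype V] {G : SimpleGraph V} (h : Crit G) : Deg2 G := by
  intro S hS hne
  obtain ⟨v, hv, hlt⟩ := h.2 (S : Set V) (by exact_mod_cast hS) (by
    intro h
    exact hne (Finset.coe_eq_univ.1 h))
  refine ⟨v, by exact_mod_cast hv, ?_⟩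
  have he : {w : V | w ∈ (S : Set V) ∧ G.Adj v w} = ((S.filter (fun w => G.Adj v w) : Finset V) : Set V) := by
    ext w; simp
  rw [he, Set.ncard_coe_finset] at hlt
  unfold dg
  convert hlt

/-- graph `G` has a cycle of length `l`. -/
def HasCyc {V : Type*} (G : SimpleGraph V) (l : ℕ) : Prop :=
  ∃ (u : V) (w : G.Walk u u), w.IsCycle ∧ w.length = l

/-- Upper bound: few critical graphs without a cycle of length `l`. -/
theorem upper (l : ℕ) (hl : 3 ≤ l) (M : ℕ) : ∃ n₀ : ℕ, ∀ n, n₀ ≤ n →
    M ^ n * ({G : SimpleGraph (Fin n) | Crit G ∧ ¬ HasCyc G l}.ncard) ≤ n ^ (2 * n + 7) := by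
  obtain ⟨d, hd, hlow⟩ := low_bound (l + 1) M
  refine ⟨3 * d + 4, fun n hn => ?_⟩
  set T : Finset (Fin n × (Fin 3 → Fin n) × (Fin 3 → Fin n) × (Fin n → Fin n)) := univ with hT
  set codes : Finset (SimpleGraph (Fin n)) := T.biUnion (fun t =>
    (low n (l + 1) (univ.image t.2.2.1)).image (fun φ => dec t.1 t.2.1 t.2.2.1 φ t.2.2.2))
    with hcodes
  have hsub : {G : SimpleGraph (Fin n) | Crit G ∧ ¬ HasCyc G l} ⊆ (codes : Set _) := by
    rintro G ⟨hG, hno⟩
    have hE := hG.1
    rw [Fintype.card_fin] at hE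
    obtain ⟨v, N, b, φ, ψ, he, hφ⟩ := exists_code G hG.deg2 hE (by omega) hl hno
    rw [hcodes, Finset.mem_coe, Finset.mem_biUnion]
    refine ⟨(v, N, b, ψ), by simp [hT], ?_⟩
    rw [Finset.mem_image]
    exact ⟨φ, hφ, he.symm⟩
  have h1 : {G : SimpleGraph (Fin n) | Crit G ∧ ¬ HasCyc G l}.ncard ≤ codes.card := by
    have := Set.ncard_le_ncard hsub (Finset.finite_toSet _)
    rwa [Set.ncard_coe_finset] at this
  have h2 : codes.card ≤ ∑ t ∈ T, (low n (l + 1) (univ.image t.2.2.1)).card := by
    refine le_trans Finset.card_biUnion_le (Finset.sum_le_sum (fun t _ => Finset.card_image_le))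
  have hTcard : T.card = n ^ (n + 7) := by
    rw [hT, Finset.card_univ]
    simp only [Fintype.card_prod, Fintype.card_fin, Fintype.card_pi, Finset.prod_const,
      Finset.card_univ]
    ring
  calc M ^ n * ({G : SimpleGraph (Fin n) | Crit G ∧ ¬ HasCyc G l}.ncard)
      ≤ M ^ n * ∑ t ∈ T, (low n (l + 1) (univ.image t.2.2.1)).card :=
        Nat.mul_le_mul_left _ (le_trans h1 h2)
    _ = ∑ t ∈ T, M ^ n * (low n (l + 1) (univ.image t.2.2.1)).card := by rw [Finset.mul_sum]
    _ ≤ ∑ t ∈ T, n ^ n := by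
        refine Finset.sum_le_sum (fun t _ => hlow n (by omega) _ ?_)
        have h3 : (univ.image t.2.2.1).card ≤ 3 := by
          refine le_trans Finset.card_image_le ?_
          simp
        calc d * (univ.image t.2.2.1).card ≤ d * 3 := Nat.mul_le_mul_left _ h3
          _ ≤ n := by omega
    _ = n ^ (2 * n + 7) := by
        rw [Finset.sum_const, hTcard, smul_eq_mul, ← pow_add]
        congr 1
        ring

end Pool.Agent.AA27
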