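import Mathlib
import Pool.Agent.Lib_helper27.AA.Upper

/-!
# A large family of critical graphs

Hubs `0, ..., h-1` carrying an elimination graph, and a path through the vertices `h, ..., n-1`
(in the order given by `pos`), each joined to one hub (the two ends to two hubs).
-/

set_option autoImplicit false

namespace Pool.Agent.AA27

open Finset Classical Pool.Agent.Cyc27

structure Dat (n h : ℕ) where
  a : ℕ → ℕ
  b : ℕ → ℕ
  w : ℕ → ℕ
  pos : ℕ → ℕ
  h4 : 4 ≤ h
  hn : 2 * h ≤ n
  ha : ∀ j, 3 ≤ j → j < h → a j < j / 2
  hb : ∀ j, 3 ≤ j → j < h → j / 2 ≤ b j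
  hb' : ∀ j, 3 ≤ j → j < h → b j < j
  hw : ∀ x, h ≤ x → x < n → w x < h
  ws : ∀ c, c < h → ∃ x, h ≤ x ∧ x < n ∧ w x = c
  hp : ∀ x, h ≤ x → x < n → pos x < n - h
  pinj : ∀ x y, h ≤ x → x < n → h ≤ y → y < n → pos x = pos y → x = y
  psurj : ∀ i, i < n - h → ∃ x, h ≤ x ∧ x < n ∧ pos x = i
  p0 : pos h = 0

namespace Dat

variable {n h : ℕ} (A : Dat n h)

/-- the additional hub at the ends. -/
def ext (h c : ℕ) : ℕ := if c + 1 = h then 0 else c + 1

theorem ext_lt {h c : ℕ} (hh : 4 ≤ h) (hc : c < h) : ext h c < h := by
  unfold ext; split_ifs <;> omega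

theorem ext_ne {h c : ℕ} (hh : 4 ≤ h) : ext h c ≠ c := by
  unfold ext; split_ifs <;> omega

/-- `y` is a back neighbour of `x`. -/
def rel (x y : ℕ) : Prop :=
  (x < 3 ∧ y < x) ∨ (3 ≤ x ∧ x < h ∧ (y = A.a x ∨ y = A.b x)) ∨ (h ≤ x ∧ y = A.w x) ∨
    (h ≤ x ∧ (A.pos x = 0 ∨ A.pos x + 1 = n - h) ∧ y = ext h (A.w x)) ∨
    (h ≤ x ∧ h ≤ y ∧ A.pos x = A.pos y + 1)

/-- the rank in the elimination order. -/
def rho (x : ℕ) : ℕ := if x < h then x else h + A.pos x

theorem rel_lt {x y : ℕ} (hx : x < n) (hr : A.rel x y) :
    A.rho y < A.rho x := by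
  have h4 := A.h4
  unfold rho
  rcases hr with ⟨h1, h2⟩ | ⟨h1, h2, h3⟩ | ⟨h1, h2⟩ | ⟨h1, h2, h3⟩ | ⟨h1, h2, h3⟩
  · rw [if_pos (by omega), if_pos (by omega)]; exact h2
  · have e1 := A.ha x h1 h2
    have e2 := A.hb' x h1 h2
    have : y < x := by omega
    rw [if_pos (by omega), if_pos (by omega)]; exact this
  · have := A.hw x h1 hx
    rw [if_pos (by omega), if_neg (by omega)]; omega
  · have e1 := A.hw x h1 hx
    have := ext_lt A.h4 e1
    rw [if_pos (by omega), if_neg (by omega)]; omega
  · rw [if_neg (by omega), if_neg (by omega)]; omega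

theorem rho_inj {x y : ℕ} (hx : x < n) (hy : y < n) (he : A.rho x = A.rho y) : x = y := by
  unfold rho at he
  by_cases h1 : x < h <;> by_cases h2 : y < h
  · simpa [h1, h2] using he
  · simp [h1, h2] at he; omega
  · simp [h1, h2] at he; omega
  · simp [h1, h2] at he
    exact A.pinj x y (by omega) hx (by omega) hy he

/-- the graph. -/
def gr : SimpleGraph (Fin n) where
  Adj x y := A.rel x y ∨ A.rel y x
  symm := ⟨fun _ _ h => h.symm⟩
  loopless := ⟨fun x hx => by
    have := hx.elim (A.rel_lt x.2) (A.rel_lt x.2)
    omega⟩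

theorem adj_iff {x y : Fin n} : A.gr.Adj x y ↔ A.rel x y ∨ A.rel y x := Iff.rfl

theorem adj_back {x y : Fin n} (hlt : A.rho y < A.rho x) : A.gr.Adj x y ↔ A.rel x y := by
  rw [adj_iff]
  constructor
  · rintro (h | h)
    · exact h
    · have := A.rel_lt y.2 h; omega
  · intro h; exact Or.inl h

end Dat

/-- twice the number of edges through back degrees. -/
theorem D_back {n : ℕ} (G : SimpleGraph (Fin n)) (r : Fin n → ℕ)
    (hr : ∀ x y, r x = r y → x = y) :
    D G univ = 2 * ∑ x, (univ.filter (fun y => G.Adj x y ∧ r y < r x)).card := by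
  have h1 : ∀ x, dg G univ x = (univ.filter (fun y => G.Adj x y ∧ r y < r x)).card +
      (univ.filter (fun y => G.Adj x y ∧ r x < r y)).card := by
    intro x
    unfold dg
    rw [← Finset.card_union_of_disjoint]
    · congr 1
      ext y
      simp only [mem_filter, mem_univ, true_and, mem_union]
      constructor
      · intro h
        rcases Nat.lt_trichotomy (r y) (r x) with h2 | h2 | h2
        · left; exact ⟨h, h2⟩
        · exact absurd (hr y x h2) h.ne'
        · right; exact ⟨h, h2⟩
      · rintro (h | h) <;> exact h.1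
    · rw [Finset.disjoint_filter]
      intro y _ h2 h3
      omega
  unfold D
  rw [Finset.sum_congr rfl (fun x _ => h1 x), Finset.sum_add_distrib, two_mul]
  congr 1
  simp only [Finset.card_filter]
  rw [Finset.sum_comm]
  refine Finset.sum_congr rfl (fun x _ => Finset.sum_congr rfl (fun y _ => ?_))
  have : (G.Adj y x ∧ r y < r x) ↔ (G.Adj x y ∧ r y < r x) := by
    rw [G.adj_comm]
  simp only [this]

namespace Dat

variable {n h : ℕ} (A : Dat n h)

theorem mlast (A : Dat n h) : 4 ≤ n - h := by
  have := A.h4; have := A.hn; omega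

/-- the back degree. -/
theorem back_card (x : Fin n) :
    (univ.filter (fun y : Fin n => A.rel x y)).card + (if x.val = 0 then 2 else 0)
      + (if x.val = 1 then 1 else 0) = 2 + (if h ≤ x.val ∧ A.pos x + 1 = n - h then 1 else 0) := by
  have h4 := A.h4
  have hn := A.hn
  have hm := A.mlast
  have hx := x.2
  -- a general tool
  have tool : ∀ s : Finset (Fin n), (∀ y : Fin n, A.rel x y ↔ y ∈ s) →
      (univ.filter (fun y : Fin n => A.rel x y)).card = s.card := by
    intro s hs
    congr 1
    ext y
    simp [hs y]
  by_cases hx3 : x.val < 3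
  · have hrel : ∀ y : Fin n, A.rel x y ↔ y.val < x.val := by
      intro y
      unfold rel
      constructor
      · rintro (h | h | h | h | h)
        · exact h.2
        · omega
        · omega
        · omega
        · omega
      · intro h; left; exact ⟨hx3, h⟩
    have hc : (univ.filter (fun y : Fin n => A.rel x y)).card = x.val := by
      have : (univ.filter (fun y : Fin n => A.rel x y)) = Finset.Iio x := by
        ext y
        simp only [mem_filter, mem_univ, true_and, hrel, Finset.mem_Iio, Fin.lt_def]
      rw [this, Fin.card_Iio]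
    rw [hc]
    have : ¬ (h ≤ x.val ∧ A.pos x + 1 = n - h) := by omega
    rw [if_neg this]
    by_cases h0 : x.val = 0
    · rw [h0]; simp
    · by_cases h1 : x.val = 1
      · rw [h1]; simp
      · rw [if_neg h0, if_neg h1]; omega
  have e0 : ¬ x.val = 0 := by omega
  have e1 : ¬ x.val = 1 := by omega
  rw [if_neg e0, if_neg e1]
  by_cases hxh : x.val < h
  · have ha := A.ha x (by omega) hxh
    have hb := A.hb x (by omega) hxh
    have hb' := A.hb' x (by omega) hxh
    have hcard : (univ.filter (fun y : Fin n => A.rel x y)).card = 2 := by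
      rw [tool {⟨A.a x, by omega⟩, ⟨A.b x, by omega⟩}]
      · rw [Finset.card_pair]
        intro he
        have := Fin.mk.inj_iff.1 he
        omega
      · intro y
        simp only [mem_insert, mem_singleton, Fin.ext_iff]
        unfold rel
        constructor
        · rintro (h | h | h | h | h)
          · omega
          · exact h.2.2
          · omega
          · omega
          · omega
        · intro h; right; left; exact ⟨by omega, hxh, h⟩
    rw [hcard, if_neg (by omega)]
  have hxh' : h ≤ x.val := by omega
  have hw := A.hw x hxh' hx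
  have he := ext_lt A.h4 hw
  have hne := ext_ne (c := A.w x) A.h4
  have hpx := A.hp x hxh' hx
  by_cases hp0 : A.pos x = 0
  · have hcard : (univ.filter (fun y : Fin n => A.rel x y)).card = 2 := by
      rw [tool {⟨A.w x, by omega⟩, ⟨ext h (A.w x), by omega⟩}]
      · rw [Finset.card_pair]
        intro he
        have := Fin.mk.inj_iff.1 he
        omega
      · intro y
        simp only [mem_insert, mem_singleton, Fin.ext_iff]
        unfold rel
        constructor
        · rintro (h | h | h | h | h)
          · omega
          · omega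
          · left; exact h.2
          · right; exact h.2.2
          · omega
        · rintro (h | h)
          · right; right; left; exact ⟨hxh', h⟩
          · right; right; right; left; exact ⟨hxh', Or.inl hp0, h⟩
    rw [hcard, if_neg (by omega)]
  obtain ⟨z, hz1, hz2, hz3⟩ := A.psurj (A.pos x - 1) (by omega)
  have hzu : ∀ y, h ≤ y → y < n → A.pos x = A.pos y + 1 → y = z := by
    intro y h1 h2 h3
    exact A.pinj y z h1 h2 hz1 hz2 (by omega)
  by_cases hpl : A.pos x + 1 = n - h
  · have hcard : (univ.filter (fun y : Fin n => A.rel x y)).card = 3 := by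
      rw [tool {⟨A.w x, by omega⟩, ⟨ext h (A.w x), by omega⟩, ⟨z, hz2⟩}]
      · rw [Finset.card_eq_three]
        refine ⟨_, _, _, ?_, ?_, ?_, rfl⟩
        · intro he; have := Fin.mk.inj_iff.1 he; omega
        · intro he; have := Fin.mk.inj_iff.1 he; omega
        · intro he; have := Fin.mk.inj_iff.1 he; omega
      · intro y
        simp only [mem_insert, mem_singleton, Fin.ext_iff]
        unfold rel
        constructor
        · rintro (h | h | h | h | h)
          · omega
          · omega
          · left; exact h.2
          · right; left; exact h.2.2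
          · right; right; exact hzu y h.2.1 y.2 h.2.2
        · rintro (h | h | h)
          · right; right; left; exact ⟨hxh', h⟩
          · right; right; right; left; exact ⟨hxh', Or.inr hpl, h⟩
          · right; right; right; right; exact ⟨hxh', by omega, by rw [h]; omega⟩
    rw [hcard, if_pos ⟨hxh', hpl⟩]
  · have hcard : (univ.filter (fun y : Fin n => A.rel x y)).card = 2 := by
      rw [tool {⟨A.w x, by omega⟩, ⟨z, hz2⟩}]
      · rw [Finset.card_pair]
        intro he; have := Fin.mk.inj_iff.1 he; omega
      · intro y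
        simp only [mem_insert, mem_singleton, Fin.ext_iff]
        unfold rel
        constructor
        · rintro (h | h | h | h | h)
          · omega
          · omega
          · left; exact h.2
          · omega
          · right; exact hzu y h.2.1 y.2 h.2.2
        · rintro (h | h)
          · right; right; left; exact ⟨hxh', h⟩
          · right; right; right; right; exact ⟨hxh', by omega, by rw [h]; omega⟩
    rw [hcard, if_neg (by omega)]

theorem card_edges : A.gr.edgeSet.ncard = 2 * n - 2 := by
  have h4 := A.h4
  have hn := A.hn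
  have hm := A.mlast
  have h1 := D_univ A.gr
  have h2 := D_back A.gr (fun x => A.rho x) (fun x y he => Fin.ext (A.rho_inj x.2 y.2 he))
  have h3 : ∀ x : Fin n, (univ.filter (fun y => A.gr.Adj x y ∧ A.rho y < A.rho x)).card
      = (univ.filter (fun y : Fin n => A.rel x y)).card := by
    intro x
    congr 1
    ext y
    simp only [mem_filter, mem_univ, true_and]
    constructor
    · rintro ⟨h, h'⟩
      exact (A.adj_back h').1 h
    · intro h
      exact ⟨Or.inl h, A.rel_lt x.2 h⟩
  have h5 : ∑ x : Fin n, ((univ.filter (fun y : Fin n => A.rel x y)).card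
      + (if x.val = 0 then 2 else 0) + (if x.val = 1 then 1 else 0))
      = ∑ x : Fin n, (2 + (if h ≤ x.val ∧ A.pos x + 1 = n - h then 1 else 0)) :=
    Finset.sum_congr rfl (fun x _ => A.back_card x)
  rw [Finset.sum_add_distrib, Finset.sum_add_distrib, Finset.sum_add_distrib] at h5
  have s0 : ∑ x : Fin n, (if x.val = 0 then 2 else 0) = 2 := by
    rw [Finset.sum_eq_single (⟨0, by omega⟩ : Fin n)]
    · simp
    · intro y _ hy
      rw [if_neg]
      intro h; exact hy (Fin.ext h)
    · intro h; exact absurd (mem_univ _) h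
  have s1 : ∑ x : Fin n, (if x.val = 1 then 1 else 0) = 1 := by
    rw [Finset.sum_eq_single (⟨1, by omega⟩ : Fin n)]
    · simp
    · intro y _ hy
      rw [if_neg]
      intro h; exact hy (Fin.ext h)
    · intro h; exact absurd (mem_univ _) h
  have s2 : ∑ x : Fin n, (if h ≤ x.val ∧ A.pos x + 1 = n - h then 1 else 0) = 1 := by
    obtain ⟨z, hz1, hz2, hz3⟩ := A.psurj (n - h - 1) (by omega)
    rw [Finset.sum_eq_single (⟨z, hz2⟩ : Fin n)]
    · rw [if_pos]
      exact ⟨hz1, by show A.pos z + 1 = _; omega⟩
    · intro y _ hy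
      rw [if_neg]
      intro h
      exact hy (Fin.ext (A.pinj y z h.1 y.2 hz1 hz2 (by omega)))
    · intro h; exact absurd (mem_univ _) h
  rw [s0, s1, s2, Finset.sum_const, Finset.card_univ, Fintype.card_fin, smul_eq_mul] at h5
  rw [Finset.sum_congr rfl (fun x _ => h3 x)] at h2
  omega

end Dat

end Pool.Agent.AA27
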