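import Mathlib
import Pool.Agent.Lib_helper27.AA.Fam

/-!
# The family consists of critical graphs, and different data give different graphs
-/

set_option autoImplicit false

namespace Pool.Agent.AA27

open Finset Classical Pool.Agent.Cyc27

namespace Dat

variable {n h : ℕ} (A : Dat n h)

/-- forward neighbours of a path vertex. -/
theorem forw {x y : ℕ} (hx : h ≤ x) (hy : y < n) (hr : A.rel y x) :
    h ≤ y ∧ A.pos y = A.pos x + 1 := by
  have h4 := A.h4
  rcases hr with ⟨h1, h2⟩ | ⟨h1, h2, h3⟩ | ⟨h1, h2⟩ | ⟨h1, h2, h3⟩ | ⟨h1, h2, h3⟩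
  · omega
  · have e1 := A.ha y h1 h2
    have e2 := A.hb' y h1 h2
    omega
  · have := A.hw y h1 hy
    omega
  · have e1 := A.hw y h1 hy
    have := ext_lt A.h4 e1
    omega
  · exact ⟨h1, h3⟩

theorem deg_le {x : Fin n} (hx : h ≤ x.val) :
    (univ.filter (fun y : Fin n => A.gr.Adj x y)).card ≤ 3 := by
  have h4 := A.h4
  have hb := A.back_card x
  rw [if_neg (by omega), if_neg (by omega)] at hb
  have hf : (univ.filter (fun y : Fin n => A.rel y x)).card ≤
      (if A.pos x + 1 = n - h then 0 else 1) := by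
    split_ifs with hl
    · have : (univ.filter (fun y : Fin n => A.rel y x)) = ∅ := by
        rw [Finset.filter_eq_empty_iff]
        intro y _ hy
        obtain ⟨h1, h2⟩ := A.forw hx y.2 hy
        have := A.hp y h1 y.2
        omega
      rw [this]; simp
    · rw [Finset.card_le_one]
      intro y hy z hz
      simp only [mem_filter, mem_univ, true_and] at hy hz
      obtain ⟨h1, h2⟩ := A.forw hx y.2 hy
      obtain ⟨h3, h5⟩ := A.forw hx z.2 hz
      exact Fin.ext (A.pinj y z h1 y.2 h3 z.2 (by omega))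
  have hsub : (univ.filter (fun y : Fin n => A.gr.Adj x y)) ⊆
      (univ.filter (fun y : Fin n => A.rel x y)) ∪ (univ.filter (fun y : Fin n => A.rel y x)) := by
    intro y hy
    simp only [mem_filter, mem_univ, true_and, mem_union] at hy ⊢
    exact hy
  have h1 := Finset.card_le_card hsub
  have h2 := Finset.card_union_le (univ.filter (fun y : Fin n => A.rel x y))
    (univ.filter (fun y : Fin n => A.rel y x))
  by_cases hl : A.pos x + 1 = n - h
  · rw [if_pos ⟨hx, hl⟩] at hb
    rw [if_pos hl] at hf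
    omega
  · rw [if_neg (by rintro ⟨_, h⟩; exact hl h)] at hb
    rw [if_neg hl] at hf
    omega

theorem crit : Crit A.gr := by
  have h4 := A.h4
  have hn := A.hn
  refine ⟨by rw [Fintype.card_fin]; exact A.card_edges, ?_⟩
  intro S hne hun
  by_contra hcon
  push Not at hcon
  have hcon' : ∀ v ∈ S, 3 ≤ (univ.filter (fun w : Fin n => w ∈ S ∧ A.gr.Adj v w)).card := by
    intro v hv
    have := hcon v hv
    have he : {w : Fin n | w ∈ S ∧ A.gr.Adj v w} =
        ((univ.filter (fun w : Fin n => w ∈ S ∧ A.gr.Adj v w) : Finset (Fin n)) : Set (Fin n)) := by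
      ext w; simp
    rwa [he, Set.ncard_coe_finset] at this
  by_cases hspine : ∀ x ∈ S, x.val < h
  · -- only hubs
    obtain ⟨x, hx, hmax⟩ := Finset.exists_max_image (univ.filter (fun x : Fin n => x ∈ S))
      (fun x => x.val) (by
        obtain ⟨x, hx⟩ := hne
        exact ⟨x, by simpa using hx⟩)
    simp only [mem_filter, mem_univ, true_and] at hx hmax
    have h3 := hcon' x hx
    have hxh := hspine x hx
    have hb := A.back_card x
    rw [if_neg (show ¬ (h ≤ x.val ∧ A.pos x + 1 = n - h) by omega)] at hb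
    have hsub : (univ.filter (fun w : Fin n => w ∈ S ∧ A.gr.Adj x w)) ⊆
        (univ.filter (fun y : Fin n => A.rel x y)) := by
      intro y hy
      simp only [mem_filter, mem_univ, true_and] at hy ⊢
      have h5 := hmax y hy.1
      have h6 := hspine y hy.1
      have h7 : y.val ≠ x.val := fun he => hy.2.ne (Fin.ext he).symm
      refine (A.adj_back ?_).1 hy.2
      unfold rho
      rw [if_pos h6, if_pos hxh]
      omega
    have := Finset.card_le_card hsub
    omega
  · push Not at hspine
    obtain ⟨x₀, hx₀, hx₀h⟩ := hspine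
    -- closure
    have hcl : ∀ x ∈ S, h ≤ x.val → ∀ y, A.gr.Adj x y → y ∈ S := by
      intro x hx hxh y hy
      have h1 := hcon' x hx
      have h2 := A.deg_le hxh
      have hsub : (univ.filter (fun w : Fin n => w ∈ S ∧ A.gr.Adj x w)) ⊆
          (univ.filter (fun w : Fin n => A.gr.Adj x w)) := by
        intro w hw
        simp only [mem_filter, mem_univ, true_and] at hw ⊢
        exact hw.2
      have he := Finset.eq_of_subset_of_card_le hsub (by omega)
      have hy' : y ∈ (univ.filter (fun w : Fin n => A.gr.Adj x w)) := by simpa using hy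
      rw [← he] at hy'
      simp only [mem_filter, mem_univ, true_and] at hy'
      exact hy'.1
    have hstep : ∀ x y : Fin n, h ≤ x.val → h ≤ y.val → A.pos y = A.pos x + 1 →
        A.gr.Adj x y := by
      intro x y hx hy he
      right; right; right; right; right
      exact ⟨hy, hx, he⟩
    have hup : ∀ k, ∀ y : Fin n, h ≤ y.val → A.pos y = A.pos x₀ + k → y ∈ S := by
      intro k
      induction k with
      | zero =>
        intro y hy he
        have : y = x₀ := Fin.ext (A.pinj y x₀ hy y.2 hx₀h x₀.2 he)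
        rw [this]; exact hx₀
      | succ k ih =>
        intro y hy he
        have := A.hp y hy y.2
        obtain ⟨z, hz1, hz2, hz3⟩ := A.psurj (A.pos x₀ + k) (by omega)
        have hz : (⟨z, hz2⟩ : Fin n) ∈ S := ih ⟨z, hz2⟩ hz1 hz3
        exact hcl _ hz hz1 y (hstep _ _ hz1 hy (by show A.pos y = A.pos z + 1; omega))
    have hdown : ∀ k, ∀ y : Fin n, h ≤ y.val → A.pos y + k = A.pos x₀ → y ∈ S := by
      intro k
      induction k with
      | zero =>
        intro y hy he
        have : y = x₀ := Fin.ext (A.pinj y x₀ hy y.2 hx₀h x₀.2 he)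
        rw [this]; exact hx₀
      | succ k ih =>
        intro y hy he
        have := A.hp x₀ hx₀h x₀.2
        obtain ⟨z, hz1, hz2, hz3⟩ := A.psurj (A.pos y + 1) (by omega)
        have hz : (⟨z, hz2⟩ : Fin n) ∈ S := ih ⟨z, hz2⟩ hz1 (by show A.pos z + k = _; omega)
        exact hcl _ hz hz1 y (hstep _ _ hy hz1 (by show A.pos z = _; omega)).symm
    have hall : ∀ y : Fin n, h ≤ y.val → y ∈ S := by
      intro y hy
      rcases Nat.le_total (A.pos x₀) (A.pos y) with h' | h'
      · exact hup (A.pos y - A.pos x₀) y hy (by omega)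
      · exact hdown (A.pos x₀ - A.pos y) y hy (by omega)
    apply hun
    ext c
    simp only [Set.mem_univ, iff_true]
    by_cases hc : c.val < h
    · obtain ⟨x, hx1, hx2, hx3⟩ := A.ws c hc
      refine hcl ⟨x, hx2⟩ (hall _ hx1) hx1 c ?_
      left; right; right; left
      exact ⟨hx1, hx3.symm⟩
    · exact hall c (by omega)

theorem hub_hub {x y : Fin n} (hx : x.val < h) (hx3 : 3 ≤ x.val) (hxy : y.val < x.val) :
    A.gr.Adj x y ↔ (y.val = A.a x ∨ y.val = A.b x) := by
  rw [A.adj_back (by unfold rho; rw [if_pos hx, if_pos (by omega)]; exact hxy)]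
  unfold rel
  constructor
  · rintro (h | h | h | h | h)
    · omega
    · exact h.2.2
    · omega
    · omega
    · omega
  · intro h; right; left; exact ⟨hx3, hx, h⟩

theorem spine_spine {x y : Fin n} (hx : h ≤ x.val) (hy : h ≤ y.val) :
    A.gr.Adj x y ↔ (A.pos x = A.pos y + 1 ∨ A.pos y = A.pos x + 1) := by
  constructor
  · rintro (h' | h')
    · left; exact (A.forw hy x.2 h').2
    · right; exact (A.forw hx y.2 h').2
  · rintro (h' | h')
    · left; right; right; right; right; exact ⟨hx, hy, h'⟩
    · right; right; right; right; right; exact ⟨hy, hx, h'⟩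

theorem spine_hub {x y : Fin n} (hx : h ≤ x.val) (hy : y.val < h) :
    A.gr.Adj x y ↔ (y.val = A.w x ∨
      ((A.pos x = 0 ∨ A.pos x + 1 = n - h) ∧ y.val = ext h (A.w x))) := by
  have h4 := A.h4
  rw [A.adj_back (by unfold rho; rw [if_pos hy, if_neg (by omega)]; omega)]
  unfold rel
  constructor
  · rintro (h | h | h | h | h)
    · omega
    · omega
    · left; exact h.2
    · right; exact h.2
    · omega
  · rintro (h | h)
    · right; right; left; exact ⟨hx, h⟩
    · right; right; right; left; exact ⟨hx, h⟩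

theorem inj_ab {A B : Dat n h} (he : A.gr = B.gr) {j : ℕ} (hj3 : 3 ≤ j) (hj : j < h) :
    A.a j = B.a j ∧ A.b j = B.b j := by
  have hn := A.hn
  have key : ∀ y, y < j → ((y = A.a j ∨ y = A.b j) ↔ (y = B.a j ∨ y = B.b j)) := by
    intro y hy
    have h1 := A.hub_hub (x := ⟨j, by omega⟩) (y := ⟨y, by omega⟩) hj hj3 hy
    have h2 := B.hub_hub (x := ⟨j, by omega⟩) (y := ⟨y, by omega⟩) hj hj3 hy
    rw [he] at h1
    exact h1.symm.trans h2
  have a1 := A.ha j hj3 hj
  have a2 := A.hb j hj3 hj
  have a3 := A.hb' j hj3 hj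
  have b1 := B.ha j hj3 hj
  have b2 := B.hb j hj3 hj
  have b3 := B.hb' j hj3 hj
  have k1 := (key (A.a j) (by omega)).1 (Or.inl rfl)
  have k2 := (key (A.b j) (by omega)).1 (Or.inr rfl)
  omega

theorem inj_pos {A B : Dat n h} (he : A.gr = B.gr) : ∀ i, ∀ x, h ≤ x → x < n →
    A.pos x = i → B.pos x = i := by
  have h4 := A.h4
  have hn := A.hn
  intro i
  induction i using Nat.strong_induction_on with
  | _ i ih =>
    intro x hx hxn hp
    have hpx := A.hp x hx hxn
    rcases Nat.eq_zero_or_pos i with h0 | h0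
    · have : x = h := A.pinj x h hx hxn (le_refl _) (by omega) (by rw [A.p0]; omega)
      rw [this, B.p0, h0]
    · obtain ⟨y, hy1, hy2, hy3⟩ := A.psurj (i - 1) (by omega)
      have hBy := ih (i - 1) (by omega) y hy1 hy2 hy3
      have h1 := A.spine_spine (x := ⟨x, hxn⟩) (y := ⟨y, hy2⟩) hx hy1
      have h2 := B.spine_spine (x := ⟨x, hxn⟩) (y := ⟨y, hy2⟩) hx hy1
      rw [he] at h1
      have h3 := (h1.symm.trans h2).1 (Or.inl (by show A.pos x = A.pos y + 1; omega))
      rcases h3 with h3 | h3
      · have h3' : B.pos x = B.pos y + 1 := h3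
        omega
      · exfalso
        have h3' : B.pos y = B.pos x + 1 := h3
        obtain ⟨z, hz1, hz2, hz3⟩ := A.psurj (i - 2) (by omega)
        have hBz := ih (i - 2) (by omega) z hz1 hz2 hz3
        have : x = z := B.pinj x z hx hxn hz1 hz2 (by omega)
        rw [this] at hp
        omega

theorem inj_w {A B : Dat n h} (he : A.gr = B.gr) {x : ℕ} (hx : h ≤ x) (hxn : x < n) :
    A.w x = B.w x := by
  have h4 := A.h4
  have hn := A.hn
  have hp : B.pos x = A.pos x := inj_pos he _ x hx hxn rfl
  have key : ∀ y, y < h → ((y = A.w x ∨ ((A.pos x = 0 ∨ A.pos x + 1 = n - h) ∧ y = ext h (A.w x)))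
      ↔ (y = B.w x ∨ ((A.pos x = 0 ∨ A.pos x + 1 = n - h) ∧ y = ext h (B.w x)))) := by
    intro y hy
    have h1 := A.spine_hub (x := ⟨x, hxn⟩) (y := ⟨y, by omega⟩) hx hy
    have h2 := B.spine_hub (x := ⟨x, hxn⟩) (y := ⟨y, by omega⟩) hx hy
    rw [he] at h1
    have h3 := h1.symm.trans h2
    simp only [hp] at h3
    exact h3
  have wa := A.hw x hx hxn
  have wb := B.hw x hx hxn
  have k1 := (key (A.w x) wa).1 (Or.inl rfl)
  have k2 := (key (B.w x) wb).2 (Or.inl rfl)
  by_contra hne
  rcases k1 with k1 | ⟨_, k1⟩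
  · exact hne k1
  rcases k2 with k2 | ⟨_, k2⟩
  · exact hne k2.symm
  unfold ext at k1 k2
  split_ifs at k1 k2 <;> omega

end Dat

end Pool.Agent.AA27
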