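import Mathlib
import Pool.Agent.Lib_helper27.AA.Fam2

/-!
# Many critical graphs
-/

set_option autoImplicit false

namespace Pool.Agent.AA27

open Finset Classical Pool.Agent.Cyc27

/-- parameters. -/
abbrev Prm (h m : ℕ) : Type :=
  ((k : Fin (h - 3)) → Fin ((k.val + 3) / 2) × Fin ((k.val + 3) - (k.val + 3) / 2)) ×
    Equiv.Perm (Fin h) × Equiv.Perm (Fin (m - 1))

/-- data from parameters. -/
def mk {n h : ℕ} (h4 : 4 ≤ h) (hn : 2 * h ≤ n) (q : Prm h (n - h)) : Dat n h where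
  a := fun j => if hj : 3 ≤ j ∧ j < h then ((q.1 ⟨j - 3, by omega⟩).1 : ℕ) else 0
  b := fun j => if hj : 3 ≤ j ∧ j < h then j / 2 + ((q.1 ⟨j - 3, by omega⟩).2 : ℕ) else 0
  w := fun x => if hx : h ≤ x ∧ x < 2 * h then (q.2.1 ⟨x - h, by omega⟩ : ℕ) else 0
  pos := fun x => if hx : h < x ∧ x < n then 1 + (q.2.2 ⟨x - h - 1, by omega⟩ : ℕ) else 0
  h4 := h4
  hn := hn
  ha := by
    intro j h1 h2
    have h3 : 3 ≤ j ∧ j < h := ⟨h1, h2⟩
    have := (q.1 ⟨j - 3, by omega⟩).1.2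
    simp only [dif_pos h3]
    simp only at this
    omega
  hb := by
    intro j h1 h2
    have h3 : 3 ≤ j ∧ j < h := ⟨h1, h2⟩
    simp only [dif_pos h3]
    omega
  hb' := by
    intro j h1 h2
    have h3 : 3 ≤ j ∧ j < h := ⟨h1, h2⟩
    have := (q.1 ⟨j - 3, by omega⟩).2.2
    simp only [dif_pos h3]
    simp only at this
    omega
  hw := by
    intro x h1 h2
    by_cases hx : h ≤ x ∧ x < 2 * h
    · simp only [dif_pos hx]
      exact (q.2.1 ⟨x - h, by omega⟩).2
    · simp only [dif_neg hx]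
      omega
  ws := by
    intro c hc
    refine ⟨h + (q.2.1.symm ⟨c, hc⟩ : ℕ), by omega, ?_, ?_⟩
    · have := (q.2.1.symm ⟨c, hc⟩).2
      omega
    · have h1 := (q.2.1.symm ⟨c, hc⟩).2
      have hx : h ≤ h + (q.2.1.symm ⟨c, hc⟩ : ℕ) ∧ h + (q.2.1.symm ⟨c, hc⟩ : ℕ) < 2 * h := by omega
      simp only [dif_pos hx]
      have : (⟨h + (q.2.1.symm ⟨c, hc⟩ : ℕ) - h, by omega⟩ : Fin h) = q.2.1.symm ⟨c, hc⟩ := by
        apply Fin.ext
        show h + _ - h = _
        omega
      rw [this, Equiv.apply_symm_apply]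
  hp := by
    intro x h1 h2
    by_cases hx : h < x ∧ x < n
    · have := (q.2.2 ⟨x - h - 1, by omega⟩).2
      simp only [dif_pos hx]
      omega
    · simp only [dif_neg hx]
      omega
  pinj := by
    intro x y h1 h2 h3 h5 he
    by_cases hx : h < x ∧ x < n <;> by_cases hy : h < y ∧ y < n
    · simp only [dif_pos hx, dif_pos hy] at he
      have h6 : q.2.2 ⟨x - h - 1, by omega⟩ = q.2.2 ⟨y - h - 1, by omega⟩ := Fin.ext (by omega)
      have h7 := q.2.2.injective h6
      have h8 := Fin.mk.inj_iff.1 h7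
      omega
    · simp only [dif_pos hx, dif_neg hy] at he
      omega
    · simp only [dif_neg hx, dif_pos hy] at he
      omega
    · omega
  psurj := by
    intro i hi
    by_cases h0 : i = 0
    · refine ⟨h, le_refl _, by omega, ?_⟩
      have : ¬ (h < h ∧ h < n) := by omega
      simp only [dif_neg this]
      omega
    · have hi' : i - 1 < n - h - 1 := by omega
      refine ⟨h + 1 + (q.2.2.symm ⟨i - 1, hi'⟩ : ℕ), by omega, ?_, ?_⟩
      · have := (q.2.2.symm ⟨i - 1, hi'⟩).2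
        omega
      · have h1 := (q.2.2.symm ⟨i - 1, hi'⟩).2
        have hx : h < h + 1 + (q.2.2.symm ⟨i - 1, hi'⟩ : ℕ) ∧
            h + 1 + (q.2.2.symm ⟨i - 1, hi'⟩ : ℕ) < n := by omega
        simp only [dif_pos hx]
        have : (⟨h + 1 + (q.2.2.symm ⟨i - 1, hi'⟩ : ℕ) - h - 1, by omega⟩ : Fin (n - h - 1))
            = q.2.2.symm ⟨i - 1, hi'⟩ := by
          apply Fin.ext
          show h + 1 + _ - h - 1 = _
          omega
        rw [this, Equiv.apply_symm_apply]
        show 1 + (i - 1) = i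
        omega
  p0 := by
    have : ¬ (h < h ∧ h < n) := by omega
    simp only [dif_neg this]

theorem mk_inj {n h : ℕ} (h4 : 4 ≤ h) (hn : 2 * h ≤ n) :
    Function.Injective (fun q : Prm h (n - h) => (mk h4 hn q).gr) := by
  intro q r he
  have he' : (mk h4 hn q).gr = (mk h4 hn r).gr := he
  have e1 : q.1 = r.1 := by
    funext k
    have hk := k.2
    have h3 : 3 ≤ k.val + 3 ∧ k.val + 3 < h := by omega
    obtain ⟨ea, eb⟩ := Dat.inj_ab he' (j := k.val + 3) (by omega) (by omega)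
    simp only [mk, dif_pos h3] at ea eb
    have hk' : (⟨k.val + 3 - 3, by omega⟩ : Fin (h - 3)) = k := Fin.ext (by show k.val + 3 - 3 = _; omega)
    have ca : ∀ s : Prm h (n - h), ((s.1 ⟨k.val + 3 - 3, by omega⟩).1 : ℕ) = ((s.1 k).1 : ℕ) := by
      intro s; rw [hk']
    have cb : ∀ s : Prm h (n - h), ((s.1 ⟨k.val + 3 - 3, by omega⟩).2 : ℕ) = ((s.1 k).2 : ℕ) := by
      intro s; rw [hk']
    rw [ca, ca] at ea
    rw [cb, cb] at eb
    exact Prod.ext (Fin.ext ea) (Fin.ext (by omega))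
  have e2 : q.2.1 = r.2.1 := by
    ext i
    have hi := i.2
    have hx : h ≤ h + i.val ∧ h + i.val < 2 * h := by omega
    have ew := Dat.inj_w he' (x := h + i.val) (by omega) (by omega)
    simp only [mk, dif_pos hx] at ew
    have hi' : (⟨h + i.val - h, by omega⟩ : Fin h) = i := Fin.ext (by show h + i.val - h = _; omega)
    rw [hi'] at ew
    exact ew
  have e3 : q.2.2 = r.2.2 := by
    ext i
    have hi := i.2
    have hx : h < h + 1 + i.val ∧ h + 1 + i.val < n := by omega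
    have ep := Dat.inj_pos he' _ (h + 1 + i.val) (by omega) (by omega) rfl
    simp only [mk, dif_pos hx] at ep
    have hi' : (⟨h + 1 + i.val - h - 1, by omega⟩ : Fin (n - h - 1)) = i :=
      Fin.ext (by show h + 1 + i.val - h - 1 = _; omega)
    rw [hi'] at ep
    omega
  exact Prod.ext e1 (Prod.ext e2 e3)

theorem card_prm (h m : ℕ) : Fintype.card (Prm h m) =
    (∏ k ∈ range (h - 3), ((k + 3) / 2 * ((k + 3) - (k + 3) / 2))) * (h.factorial * (m - 1).factorial) := by
  simp only [Fintype.card_prod, Fintype.card_pi, Fintype.card_fin, Fintype.card_perm]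
  rw [← Fin.prod_univ_eq_prod_range (fun k => (k + 3) / 2 * ((k + 3) - (k + 3) / 2))]

theorem card_crit_ge {n : ℕ} (hn : 8 ≤ n) :
    (∏ k ∈ range (n / 2 - 3), ((k + 3) / 2 * ((k + 3) - (k + 3) / 2))) *
      ((n / 2).factorial * (n - n / 2 - 1).factorial) ≤
    {G : SimpleGraph (Fin n) | Crit G}.ncard := by
  have h4 : 4 ≤ n / 2 := by omega
  have h2 : 2 * (n / 2) ≤ n := by omega
  rw [← card_prm]
  have : (Set.range (fun q : Prm (n / 2) (n - n / 2) => (mk h4 h2 q).gr)).ncard =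
      Fintype.card (Prm (n / 2) (n - n / 2)) := by
    rw [← Set.image_univ, Set.ncard_image_of_injective _ (mk_inj h4 h2), Set.ncard_univ,
      Nat.card_eq_fintype_card]
  rw [← this]
  refine Set.ncard_le_ncard ?_ (Set.toFinite _)
  rintro G ⟨q, rfl⟩
  exact (mk h4 h2 q).crit

theorem pow_self_le (k : ℕ) : k ^ k ≤ 3 ^ k * k.factorial := by
  have h1 := Real.pow_div_factorial_le_exp (k : ℝ) (by positivity) k
  have h2 : Real.exp k ≤ 3 ^ k := by
    have : Real.exp (k : ℝ) = (Real.exp 1) ^ k := by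
      rw [← Real.exp_nat_mul]; simp
    rw [this]
    exact pow_le_pow_left₀ (Real.exp_pos _).le Real.exp_one_lt_three.le k
  have h3 : (k : ℝ) ^ k ≤ 3 ^ k * k.factorial := by
    have hf : (0 : ℝ) < k.factorial := by positivity
    have := h1.trans h2
    rwa [div_le_iff₀ hf] at this
  exact_mod_cast h3

theorem prod_ge (t : ℕ) : (t + 2).factorial ^ 2 ≤
    4 * 9 ^ t * ∏ k ∈ range t, ((k + 3) / 2 * ((k + 3) - (k + 3) / 2)) := by
  induction t with
  | zero => simp [Nat.factorial]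
  | succ t ih =>
    rw [Finset.prod_range_succ]
    have h1 : (t + 3) ^ 2 ≤ 9 * ((t + 3) / 2 * ((t + 3) - (t + 3) / 2)) := by
      obtain ⟨s, hs | hs⟩ : ∃ s, t + 3 = 2 * s ∨ t + 3 = 2 * s + 1 := ⟨(t + 3) / 2, by omega⟩
      · have e1 : (t + 3) / 2 = s := by omega
        have e2 : t + 3 - s = s := by omega
        rw [e1, e2, hs]; nlinarith
      · have e1 : (t + 3) / 2 = s := by omega
        have e2 : t + 3 - s = s + 1 := by omega
        rw [e1, e2, hs]
        have : 1 ≤ s := by omega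
        nlinarith
    have h2 : (t + 1 + 2).factorial = (t + 3) * (t + 2).factorial := by
      rw [show t + 1 + 2 = (t + 2) + 1 by ring, Nat.factorial_succ]
    rw [h2, mul_pow]
    calc (t + 3) ^ 2 * (t + 2).factorial ^ 2
        ≤ (9 * ((t + 3) / 2 * ((t + 3) - (t + 3) / 2))) *
          (4 * 9 ^ t * ∏ k ∈ range t, ((k + 3) / 2 * ((k + 3) - (k + 3) / 2))) :=
          Nat.mul_le_mul h1 ih
      _ = _ := by ring

/-- Lower bound for the number of critical graphs. -/
theorem lower {n : ℕ} (hn : 8 ≤ n) :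
    n ^ (2 * n) ≤ 15116544 ^ n * {G : SimpleGraph (Fin n) | Crit G}.ncard := by
  obtain ⟨t, ht⟩ : ∃ t, n / 2 = t + 1 := ⟨n / 2 - 1, by omega⟩
  have ht3 : 3 ≤ t := by omega
  have hc := card_crit_ge hn
  set N := {G : SimpleGraph (Fin n) | Crit G}.ncard with hN
  have hp := prod_ge (n / 2 - 3)
  have e1 : n / 2 - 3 + 2 = t := by omega
  rw [e1] at hp
  set Q := ∏ k ∈ range (n / 2 - 3), ((k + 3) / 2 * ((k + 3) - (k + 3) / 2)) with hQ
  have f1 : t.factorial ≤ (n / 2).factorial := Nat.factorial_le (by omega)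
  have f2 : t.factorial ≤ (n - n / 2 - 1).factorial := Nat.factorial_le (by omega)
  have h1 : t.factorial ^ 4 ≤ 4 * 9 ^ n * N := by
    calc t.factorial ^ 4 = t.factorial ^ 2 * (t.factorial * t.factorial) := by ring
      _ ≤ (4 * 9 ^ (n / 2 - 3) * Q) * ((n / 2).factorial * (n - n / 2 - 1).factorial) :=
        Nat.mul_le_mul hp (Nat.mul_le_mul f1 f2)
      _ = 4 * 9 ^ (n / 2 - 3) * (Q * ((n / 2).factorial * (n - n / 2 - 1).factorial)) := by ring
      _ ≤ 4 * 9 ^ n * N := by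
        refine Nat.mul_le_mul (Nat.mul_le_mul_left _ (Nat.pow_le_pow_right (by norm_num) (by omega))) hc
  have hn3 : n ≤ 3 * t := by omega
  have h2n : 2 * n ≤ 4 * t + 6 := by omega
  have h2 : n ^ (2 * n) ≤ n ^ 6 * (3 * t) ^ (4 * t) := by
    calc n ^ (2 * n) ≤ n ^ (4 * t + 6) := Nat.pow_le_pow_right (by omega) h2n
      _ = n ^ 6 * n ^ (4 * t) := by rw [pow_add]; ring
      _ ≤ n ^ 6 * (3 * t) ^ (4 * t) := Nat.mul_le_mul_left _ (Nat.pow_le_pow_left hn3 _)
  have h3 : (3 * t) ^ (4 * t) ≤ 6561 ^ n * t.factorial ^ 4 := by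
    calc (3 * t) ^ (4 * t) = 81 ^ t * (t ^ t) ^ 4 := by
          rw [mul_pow, pow_mul 3 4 t, mul_comm 4 t, pow_mul t t 4]
          norm_num
      _ ≤ 81 ^ t * (3 ^ t * t.factorial) ^ 4 :=
          Nat.mul_le_mul_left _ (Nat.pow_le_pow_left (pow_self_le t) 4)
      _ = 6561 ^ t * t.factorial ^ 4 := by
          have : (3 ^ t * t.factorial) ^ 4 = 81 ^ t * t.factorial ^ 4 := by
            rw [mul_pow, ← pow_mul, mul_comm t 4, pow_mul]; norm_num
          rw [this, ← mul_assoc, ← mul_pow]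
          norm_num
      _ ≤ 6561 ^ n * t.factorial ^ 4 :=
          Nat.mul_le_mul_right _ (Nat.pow_le_pow_right (by norm_num) (by omega))
  have h4 : n ^ 6 ≤ 64 ^ n := by
    have : n ≤ 2 ^ n := Nat.lt_two_pow_self.le
    calc n ^ 6 ≤ (2 ^ n) ^ 6 := Nat.pow_le_pow_left this 6
      _ = 64 ^ n := by rw [← pow_mul, mul_comm, pow_mul]; norm_num
  have h5 : 4 ≤ 4 ^ n := by
    calc 4 = 4 ^ 1 := by norm_num
      _ ≤ 4 ^ n := Nat.pow_le_pow_right (by norm_num) (by omega)
  calc n ^ (2 * n) ≤ n ^ 6 * (3 * t) ^ (4 * t) := h2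
    _ ≤ 64 ^ n * (6561 ^ n * t.factorial ^ 4) := Nat.mul_le_mul h4 h3
    _ ≤ 64 ^ n * (6561 ^ n * (4 ^ n * 9 ^ n * N)) := by
        refine Nat.mul_le_mul_left _ (Nat.mul_le_mul_left _ (h1.trans ?_))
        exact Nat.mul_le_mul_right _ (Nat.mul_le_mul_right _ h5)
    _ = 15116544 ^ n * N := by
        have : (15116544 : ℕ) = 64 * (6561 * (4 * 9)) := by norm_num
        rw [this, mul_pow, mul_pow, mul_pow]
        ring

end Pool.Agent.AA27
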