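import Mathlib
import Pool.Agent.Lib_helper27.AA.Count

/-!
# A critical graph has at most `n * 3 ^ n` automorphisms
-/

set_option autoImplicit false

namespace Pool.Agent.AA27

open Finset Classical Pool.Agent.Cyc27

/-- the isomorphisms from `G` to `H` as permutations. -/
noncomputable def isos {n : ℕ} (G H : SimpleGraph (Fin n)) : Finset (Equiv.Perm (Fin n)) :=
  univ.filter (fun s => ∀ x y, G.Adj x y ↔ H.Adj (s x) (s y))

theorem card_isos_le {n : ℕ} (G H : SimpleGraph (Fin n)) (hn : 1 ≤ n) (e : ℕ → Fin n)
    (he : ∀ x, ∃ i < n, e i = x)
    (hj : ∀ i, 1 ≤ i → i < n → ∃ j < i, G.Adj (e j) (e i) ∧ (∀ k ≤ j, e i ≠ e k) ∧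
      (univ.filter (fun y => G.Adj (e j) y ∧ ∀ k ≤ j, y ≠ e k)).card ≤ 3) :
    (isos G H).card ≤ n * 3 ^ (n - 1) := by
  -- restrictions
  let r : ℕ → Equiv.Perm (Fin n) → (Fin n → Fin n) := fun k s i =>
    if i.val < k then s (e i) else e 0
  let t : ℕ → (Fin n → Fin n) → (Fin n → Fin n) := fun k τ i => if i.val < k then τ i else e 0
  have htr : ∀ k s, t k (r (k + 1) s) = r k s := by
    intro k s
    funext i
    simp only [t, r]
    by_cases h : i.val < k
    · rw [if_pos h, if_pos (by omega), if_pos h]
    · rw [if_neg h, if_neg h]
  have key : ∀ k, 1 ≤ k → k ≤ n → ((isos G H).image (r k)).card ≤ n * 3 ^ (k - 1) := by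
    intro k hk
    induction k, hk using Nat.le_induction with
    | base =>
      intro _
      have hsub : ((isos G H).image (r 1)) ⊆
          (univ : Finset (Fin n)).image (fun y => fun i : Fin n => if i.val < 1 then y else e 0) := by
        intro τ hτ
        rw [Finset.mem_image] at hτ ⊢
        obtain ⟨s, _, rfl⟩ := hτ
        refine ⟨s (e 0), mem_univ _, ?_⟩
        funext i
        simp only [r]
        by_cases h : i.val < 1
        · rw [if_pos h, if_pos h]
          have : i.val = 0 := by omega
          rw [this]
        · rw [if_neg h, if_neg h]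
      have := Finset.card_le_card hsub
      refine this.trans (Finset.card_image_le.trans ?_)
      simp
    | succ k hk ih =>
      intro hkn
      have ih := ih (by omega)
      obtain ⟨j, hjk, hadj, hnew, hcard⟩ := hj k hk (by omega)
      have hstep : ((isos G H).image (r (k + 1))).card ≤
          3 * (((isos G H).image (r (k + 1))).image (t k)).card := by
        refine Finset.card_le_mul_card_image _ 3 ?_
        intro τ hτ
        -- a witness
        rw [Finset.mem_image] at hτ
        obtain ⟨τ', hτ', hτe⟩ := hτ
        rw [Finset.mem_image] at hτ'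
        obtain ⟨s, hs, rfl⟩ := hτ'
        rw [htr] at hτe
        have hs' : ∀ x y, G.Adj x y ↔ H.Adj (s x) (s y) := by
          have := (Finset.mem_filter.1 hs).2
          exact this
        have hτi : ∀ i : ℕ, (hi : i < k) → τ ⟨i, by omega⟩ = s (e i) := by
          intro i hi
          rw [← hτe]
          simp only [r, if_pos hi]
        -- the target set
        have hY : ((univ.filter (fun y => G.Adj (e j) y ∧ ∀ k ≤ j, y ≠ e k)).image s).card ≤ 3 :=
          Finset.card_image_le.trans hcard
        refine le_trans ?_ hY
        refine Finset.card_le_card_of_injOn (fun τ' => τ' ⟨k, by omega⟩) ?_ ?_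
        · intro τ' hτ'
          rw [Finset.mem_coe, Finset.mem_filter, Finset.mem_image] at hτ'
          obtain ⟨⟨s', hs'', rfl⟩, h2⟩ := hτ'
          rw [htr] at h2
          have hs3 : ∀ x y, G.Adj x y ↔ H.Adj (s' x) (s' y) := (Finset.mem_filter.1 hs'').2
          have hss : ∀ i, i < k → s' (e i) = s (e i) := by
            intro i hi
            have h3 := congrFun (h2.trans hτe.symm) ⟨i, by omega⟩
            simp only [r, if_pos hi] at h3
            exact h3
          have hval : r (k + 1) s' ⟨k, by omega⟩ = s' (e k) := by
            simp only [r]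
            rw [if_pos (by omega)]
          simp only [hval]
          rw [Finset.mem_coe, Finset.mem_image]
          refine ⟨s.symm (s' (e k)), ?_, by simp⟩
          rw [Finset.mem_filter]
          refine ⟨mem_univ _, ?_, ?_⟩
          · rw [hs']
            rw [Equiv.apply_symm_apply, ← hss j hjk]
            exact (hs3 _ _).1 hadj
          · intro i hi h4
            rw [Equiv.symm_apply_eq, ← hss i (by omega)] at h4
            exact hnew i hi (s'.injective h4)
        · intro τ₁ h1 τ₂ h2 h12
          rw [Finset.mem_coe, Finset.mem_filter, Finset.mem_image] at h1 h2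
          obtain ⟨⟨s₁, _, rfl⟩, h1'⟩ := h1
          obtain ⟨⟨s₂, _, rfl⟩, h2'⟩ := h2
          rw [htr] at h1' h2'
          funext i
          by_cases hi : i.val < k
          · have h3 := congrFun (h1'.trans h2'.symm) i
            simp only [r, if_pos hi] at h3 ⊢
            rw [if_pos (by omega), if_pos (by omega)]
            exact h3
          · by_cases hik : i.val = k
            · have : i = ⟨k, by omega⟩ := Fin.ext hik
              rw [this]
              exact h12
            · simp only [r]
              rw [if_neg (by omega), if_neg (by omega)]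
      have himg : ((isos G H).image (r (k + 1))).image (t k) = (isos G H).image (r k) := by
        rw [Finset.image_image]
        congr 1
        funext s
        exact htr k s
      rw [himg] at hstep
      calc ((isos G H).image (r (k + 1))).card ≤ 3 * ((isos G H).image (r k)).card := hstep
        _ ≤ 3 * (n * 3 ^ (k - 1)) := Nat.mul_le_mul_left _ ih
        _ = n * 3 ^ (k + 1 - 1) := by
          obtain ⟨l, rfl⟩ : ∃ l, k = l + 1 := ⟨k - 1, by omega⟩
          simp only [Nat.add_sub_cancel, pow_succ]
          ring
  have hinj : Set.InjOn (r n) ((isos G H : Finset _) : Set (Equiv.Perm (Fin n))) := by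
    intro s _ s' _ h
    ext x
    obtain ⟨i, hi, rfl⟩ := he x
    have := congrFun h ⟨i, hi⟩
    simp only [r, if_pos hi] at this
    rw [this]
  rw [← Finset.card_image_of_injOn hinj]
  exact key n hn (le_refl _)

/-- critical graphs have minimum degree at least 3. -/
theorem dg_ge {V : Type*} [Fintype V] {G : SimpleGraph V} (hG : Deg2 G)
    (hE : G.edgeSet.ncard = 2 * Fintype.card V - 2) (hn : 4 ≤ Fintype.card V) (x : V) :
    3 ≤ dg G univ x := by
  have hU := D_univ G
  rw [hE] at hU
  have hc : (Finset.univ.erase x).card = Fintype.card V - 1 := by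
    rw [Finset.card_erase_of_mem (Finset.mem_univ x), Finset.card_univ]
  have he := D_erase G (Finset.mem_univ x)
  have hup := D_upper G hG (Fintype.card V - 1) (by omega) (Finset.univ.erase x) hc erase_ne_univ
  omega

theorem card_isos_crit {n : ℕ} (hn : 4 ≤ n) {G : SimpleGraph (Fin n)} (hG : Crit G)
    (H : SimpleGraph (Fin n)) : (isos G H).card ≤ n * 3 ^ (n - 1) := by
  have hcard : Fintype.card (Fin n) = n := Fintype.card_fin n
  have hE := hG.1
  obtain ⟨v, P, f, R, E, hfv, hsurj, hdeg⟩ := exists_decomp' G hG.deg2 hE (by rw [hcard]; exact hn)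
  rw [hcard] at R E hfv hsurj
  let e : ℕ → Fin n := fun i => if i = 0 then v else f (n - 1 - i)
  have he0 : e 0 = v := by simp [e]
  have hei : ∀ i, 1 ≤ i → e i = f (n - 1 - i) := by
    intro i hi
    simp only [e]
    rw [if_neg (by omega)]
  refine card_isos_le G H (by omega) e ?_ ?_
  · intro x
    by_cases hx : x = v
    · exact ⟨0, by omega, by rw [he0, hx]⟩
    · obtain ⟨t, ht, rfl⟩ := hsurj x hx
      refine ⟨n - 1 - t, by omega, ?_⟩
      rw [hei _ (by omega)]
      congr 1
      omega
  · intro i hi1 hin
    -- the vertex and its index
    set s := n - 1 - i with hs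
    have hs' : s < n - 1 := by omega
    have hes : e i = f s := hei i hi1
    -- back neighbours of `f t`
    have hback : ∀ t, t < n - 1 → (univ.filter (fun y => G.Adj (f t) y ∧ ∃ u < t, y = f u)).card ≤ 2 := by
      intro t ht
      by_cases h3 : 3 ≤ t
      · have hsub : (univ.filter (fun y => G.Adj (f t) y ∧ ∃ u < t, y = f u)) ⊆
            {f (P.p t), f (P.q t)} := by
          intro y hy
          simp only [mem_filter, mem_univ, true_and] at hy
          obtain ⟨h1, u, hu, rfl⟩ := hy
          rcases E t u h3 ht hu h1 with h | h
          · rw [h]; simp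
          · rw [h]; simp
        exact (Finset.card_le_card hsub).trans Finset.card_le_two
      · have hsub : (univ.filter (fun y => G.Adj (f t) y ∧ ∃ u < t, y = f u)) ⊆
            (Finset.range t).image f := by
          intro y hy
          simp only [mem_filter, mem_univ, true_and] at hy
          obtain ⟨h1, u, hu, rfl⟩ := hy
          exact Finset.mem_image_of_mem _ (Finset.mem_range.2 hu)
        have := (Finset.card_le_card hsub).trans Finset.card_image_le
        rw [Finset.card_range] at this
        omega
    -- an earlier neighbour in the collapse order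
    have h3 := dg_ge hG.deg2 hE (by rw [hcard]; exact hn) (f s)
    have hb := hback s hs'
    have hex : ∃ y, G.Adj (f s) y ∧ ¬ ∃ u < s, y = f u := by
      by_contra hcon
      push Not at hcon
      have : (univ.filter (fun y => G.Adj (f s) y)) ⊆
          (univ.filter (fun y => G.Adj (f s) y ∧ ∃ u < s, y = f u)) := by
        intro y hy
        simp only [mem_filter, mem_univ, true_and] at hy ⊢
        exact ⟨hy, hcon y hy⟩
      have h4 := Finset.card_le_card this
      unfold dg at h3
      omega
    obtain ⟨y, hy1, hy2⟩ := hex
    by_cases hyv : y = v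
    · refine ⟨0, by omega, ?_, ?_, ?_⟩
      · rw [he0, hes, ← hyv]; exact hy1.symm
      · intro k hk
        have : k = 0 := by omega
        rw [this, he0, hes]
        exact hfv s hs'
      · rw [he0]
        refine le_trans (Finset.card_le_card ?_) hdeg.le
        intro z hz
        simp only [mem_filter, mem_univ, true_and] at hz ⊢
        exact hz.1
    · obtain ⟨u, hu, rfl⟩ := hsurj y hyv
      have hus : s < u := by
        rcases Nat.lt_trichotomy u s with h | h | h
        · exact absurd ⟨u, h, rfl⟩ hy2
        · rw [h] at hy1; exact absurd rfl hy1.ne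
        · exact h
      have heu : e (n - 1 - u) = f u := by
        rw [hei _ (by omega)]; congr 1; omega
      refine ⟨n - 1 - u, by omega, ?_, ?_, ?_⟩
      · rw [heu, hes]; exact hy1.symm
      · intro k hk
        by_cases hk0 : k = 0
        · rw [hk0, he0, hes]; exact hfv s hs'
        · rw [hei k (by omega), hes]
          intro h
          have := R.inj _ _ hs' (by omega) h
          omega
      · rw [heu]
        refine le_trans (Finset.card_le_card ?_) ((hback u hu).trans (by norm_num))
        intro z hz
        simp only [mem_filter, mem_univ, true_and] at hz ⊢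
        refine ⟨hz.1, ?_⟩
        have hzv : z ≠ v := by
          have := hz.2 0 (by omega)
          rwa [he0] at this
        obtain ⟨w, hw, rfl⟩ := hsurj z hzv
        refine ⟨w, ?_, rfl⟩
        by_contra hcon
        have := hz.2 (n - 1 - w) (by omega)
        apply this
        rw [hei _ (by omega)]; congr 1; omega

end Pool.Agent.AA27
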