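import Mathlib
import Pool.Agent.Lib_helper27.AA.Iso

/-!
# Isomorphism classes of critical graphs
-/

set_option autoImplicit false

namespace Pool.Agent.AA27

open Finset Classical

/-- the isomorphism class of a graph. -/
def cls {n : ℕ} (G : SimpleGraph (Fin n)) : Set (SimpleGraph (Fin n)) := {H | Nonempty (G ≃g H)}

theorem mem_cls_iff {n : ℕ} (G H : SimpleGraph (Fin n)) : H ∈ cls G ↔ (isos G H).Nonempty := by
  unfold cls isos
  constructor
  · rintro ⟨φ⟩
    refine ⟨φ.toEquiv, ?_⟩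
    simp only [mem_filter, mem_univ, true_and]
    intro x y
    exact (φ.map_rel_iff (a := x) (b := y)).symm
  · rintro ⟨s, hs⟩
    simp only [mem_filter, mem_univ, true_and] at hs
    exact ⟨⟨s, fun {x y} => (hs x y).symm⟩⟩

theorem cls_self {n : ℕ} (G : SimpleGraph (Fin n)) : G ∈ cls G := ⟨SimpleGraph.Iso.refl⟩

theorem cls_eq_iff {n : ℕ} (G H : SimpleGraph (Fin n)) : cls H = cls G ↔ H ∈ cls G := by
  constructor
  · intro h
    rw [← h]; exact cls_self H
  · rintro ⟨φ⟩
    ext K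
    constructor
    · rintro ⟨ψ⟩; exact ⟨φ.trans ψ⟩
    · rintro ⟨ψ⟩; exact ⟨φ.symm.trans ψ⟩

theorem sum_isos {n : ℕ} (G : SimpleGraph (Fin n)) :
    ∑ H ∈ univ.filter (fun H => H ∈ cls G), (isos G H).card = n.factorial := by
  have hperm : (univ : Finset (Equiv.Perm (Fin n))).card = n.factorial := by
    rw [Finset.card_univ, Fintype.card_perm, Fintype.card_fin]
  let f : Equiv.Perm (Fin n) → SimpleGraph (Fin n) := fun s => G.comap s.symm
  have hf : ∀ s H, f s = H ↔ s ∈ isos G H := by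
    intro s H
    simp only [isos, mem_filter, mem_univ, true_and, f]
    constructor
    · rintro rfl x y
      simp [SimpleGraph.comap_adj]
    · intro h
      ext x y
      rw [SimpleGraph.comap_adj, h]
      simp
  rw [← hperm, Finset.card_eq_sum_card_fiberwise (f := f) (t := univ.filter (fun H => H ∈ cls G))]
  · refine Finset.sum_congr rfl fun H _ => ?_
    congr 1
    ext s
    simp only [mem_filter, mem_univ, true_and]
    exact (hf s H).symm
  · intro s _
    simp only [coe_filter, mem_univ, true_and, Set.mem_ofPred_eq]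
    rw [mem_cls_iff]
    exact ⟨s, (hf s _).1 rfl⟩

theorem card_cls_le {n : ℕ} (G : SimpleGraph (Fin n)) :
    (univ.filter (fun H => H ∈ cls G)).card ≤ n.factorial := by
  rw [← sum_isos G, Finset.card_eq_sum_ones]
  refine Finset.sum_le_sum fun H hH => ?_
  rw [mem_filter] at hH
  exact Finset.card_pos.2 ((mem_cls_iff G H).1 hH.2)

theorem le_card_cls {n : ℕ} (hn : 4 ≤ n) {G : SimpleGraph (Fin n)} (hG : Crit G) :
    n.factorial ≤ (univ.filter (fun H => H ∈ cls G)).card * (n * 3 ^ (n - 1)) := by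
  rw [← sum_isos G]
  exact Finset.sum_le_card_nsmul _ _ _ fun H _ => card_isos_crit hn hG H

theorem card_eq_sum_cls {n : ℕ} (S : Finset (SimpleGraph (Fin n)))
    (hS : ∀ G ∈ S, ∀ H ∈ cls G, H ∈ S) :
    S.card = ∑ c ∈ S.image cls, (univ.filter (fun H => H ∈ c)).card := by
  rw [Finset.card_eq_sum_card_image (f := cls)]
  refine Finset.sum_congr rfl fun c hc => ?_
  congr 1
  obtain ⟨G, hG, rfl⟩ := Finset.mem_image.1 hc
  ext H
  simp only [mem_filter, mem_univ, true_and]
  constructor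
  · rintro ⟨_, h⟩; exact (cls_eq_iff G H).1 h
  · intro h; exact ⟨hS G hG H h, (cls_eq_iff G H).2 h⟩

theorem card_le_classes {n : ℕ} (S : Finset (SimpleGraph (Fin n)))
    (hS : ∀ G ∈ S, ∀ H ∈ cls G, H ∈ S) : S.card ≤ n.factorial * (S.image cls).card := by
  rw [card_eq_sum_cls S hS, mul_comm]
  refine Finset.sum_le_card_nsmul _ _ _ fun c hc => ?_
  obtain ⟨G, _, rfl⟩ := Finset.mem_image.1 hc
  exact card_cls_le G

theorem classes_le_card {n : ℕ} (hn : 4 ≤ n) (S : Finset (SimpleGraph (Fin n)))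
    (hS : ∀ G ∈ S, ∀ H ∈ cls G, H ∈ S) (hc : ∀ G ∈ S, Crit G) :
    n.factorial * (S.image cls).card ≤ S.card * (n * 3 ^ (n - 1)) := by
  rw [card_eq_sum_cls S hS, mul_comm, Finset.sum_mul, ← smul_eq_mul]
  refine Finset.card_nsmul_le_sum _ _ _ fun c hc' => ?_
  obtain ⟨G, hG, rfl⟩ := Finset.mem_image.1 hc'
  exact le_card_cls hn (hc G hG)

/-! ### invariance -/

theorem Crit.iso {n : ℕ} {G H : SimpleGraph (Fin n)} (hG : Crit G) (φ : G ≃g H) : Crit H := by
  refine ⟨?_, ?_⟩
  · rw [← hG.1]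
    exact (Nat.card_congr φ.mapEdgeSet).symm
  · intro S hS hne
    obtain ⟨v, hv, hlt⟩ := hG.2 (φ ⁻¹' S) (by
      obtain ⟨x, hx⟩ := hS
      exact ⟨φ.symm x, by simpa using hx⟩) (by
      intro h
      apply hne
      rw [Set.eq_univ_iff_forall] at h ⊢
      intro x
      have := h (φ.symm x)
      simpa using this)
    refine ⟨φ v, hv, ?_⟩
    have he : {w : Fin n | w ∈ S ∧ H.Adj (φ v) w} = φ '' {w | w ∈ φ ⁻¹' S ∧ G.Adj v w} := by
      ext w
      constructor
      · rintro ⟨h1, h2⟩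
        refine ⟨φ.symm w, ⟨by simpa using h1, ?_⟩, by simp⟩
        rw [← φ.map_adj_iff]
        simpa using h2
      · rintro ⟨w', ⟨h1, h2⟩, rfl⟩
        exact ⟨h1, φ.map_adj_iff.2 h2⟩
    rw [he, Set.ncard_image_of_injective _ φ.injective]
    exact hlt

theorem HasCyc.iso {n : ℕ} {G H : SimpleGraph (Fin n)} {l : ℕ} (hG : HasCyc G l) (φ : G ≃g H) :
    HasCyc H l := by
  obtain ⟨u, w, hw, hl⟩ := hG
  refine ⟨φ u, w.map φ.toHom, ?_, by rw [SimpleGraph.Walk.length_map, hl]⟩
  exact (SimpleGraph.Walk.isCycle_map_iff_of_injective φ.injective).2 hw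

/-- The main comparison: if `(6 M)^n * #bad ≤ #good` then `M^n * #classes of bad ≤ #classes of
good`. -/
theorem classes_compare {n : ℕ} (hn : 4 ≤ n) (M : ℕ) (B A : Finset (SimpleGraph (Fin n)))
    (hB : ∀ G ∈ B, ∀ H ∈ cls G, H ∈ B) (hBc : ∀ G ∈ B, Crit G)
    (hA : ∀ G ∈ A, ∀ H ∈ cls G, H ∈ A)
    (h : (6 * M) ^ n * B.card ≤ A.card) :
    M ^ n * (B.image cls).card ≤ (A.image cls).card := by
  have h1 := classes_le_card hn B hB hBc
  have h2 := card_le_classes A hA
  have h3 : n * 3 ^ (n - 1) ≤ 6 ^ n := by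
    have : n ≤ 2 ^ n := Nat.lt_two_pow_self.le
    calc n * 3 ^ (n - 1) ≤ 2 ^ n * 3 ^ n :=
          Nat.mul_le_mul this (Nat.pow_le_pow_right (by norm_num) (by omega))
      _ = 6 ^ n := by rw [← mul_pow]; norm_num
  have h4 : n.factorial * (M ^ n * (B.image cls).card) ≤ n.factorial * (A.image cls).card := by
    calc n.factorial * (M ^ n * (B.image cls).card)
        = M ^ n * (n.factorial * (B.image cls).card) := by ring
      _ ≤ M ^ n * (B.card * (n * 3 ^ (n - 1))) := Nat.mul_le_mul_left _ h1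
      _ ≤ M ^ n * (B.card * 6 ^ n) := Nat.mul_le_mul_left _ (Nat.mul_le_mul_left _ h3)
      _ = (6 * M) ^ n * B.card := by rw [mul_pow]; ring
      _ ≤ A.card := h
      _ ≤ n.factorial * (A.image cls).card := h2
  exact Nat.le_of_mul_le_mul_left h4 (Nat.factorial_pos n)

end Pool.Agent.AA27
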