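import Mathlib
import Pool.Agent.Lib_helper27.AA.Classes

/-!
# Almost all critical graphs have all short cycles
-/

set_option autoImplicit false

namespace Pool.Agent.AA27

open Finset Classical

/-- all critical graphs on `Fin n`. -/
noncomputable def critF (n : ℕ) : Finset (SimpleGraph (Fin n)) := univ.filter (fun G => Crit G)

/-- critical graphs missing a cycle of some length in `[3, L]`. -/
noncomputable def badF (n L : ℕ) : Finset (SimpleGraph (Fin n)) :=
  univ.filter (fun G => Crit G ∧ ∃ l, 3 ≤ l ∧ l ≤ L ∧ ¬ HasCyc G l)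

theorem ncard_crit (n : ℕ) : {G : SimpleGraph (Fin n) | Crit G}.ncard = (critF n).card := by
  rw [← Set.ncard_coe_finset]; congr 1; ext G; simp [critF]

theorem single (l : ℕ) (hl : 3 ≤ l) (M : ℕ) : ∃ n₀ : ℕ, ∀ n, n₀ ≤ n →
    M ^ n * ({G : SimpleGraph (Fin n) | Crit G ∧ ¬ HasCyc G l}.ncard) ≤ (critF n).card := by
  obtain ⟨n₀, h⟩ := upper l hl (128 * 15116544 * M)
  refine ⟨max n₀ 8, fun n hn => ?_⟩
  have h1 := h n (le_trans (le_max_left _ _) hn)
  have h2 := lower (le_trans (le_max_right n₀ 8) hn)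
  rw [ncard_crit] at h2
  set b := {G : SimpleGraph (Fin n) | Crit G ∧ ¬ HasCyc G l}.ncard with hb
  have h7 : n ^ 7 ≤ 128 ^ n := by
    have : n ≤ 2 ^ n := Nat.lt_two_pow_self.le
    calc n ^ 7 ≤ (2 ^ n) ^ 7 := Nat.pow_le_pow_left this 7
      _ = 128 ^ n := by rw [← pow_mul, mul_comm, pow_mul]; norm_num
  have hK : 0 < (128 * 15116544 : ℕ) ^ n := by positivity
  refine Nat.le_of_mul_le_mul_left ?_ hK
  calc (128 * 15116544) ^ n * (M ^ n * b) = (128 * 15116544 * M) ^ n * b := by
        rw [mul_pow (128 * 15116544) M n]; ring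
    _ ≤ n ^ (2 * n + 7) := h1
    _ = n ^ (2 * n) * n ^ 7 := pow_add _ _ _
    _ ≤ (15116544 ^ n * (critF n).card) * 128 ^ n := Nat.mul_le_mul h2 h7
    _ = (128 * 15116544) ^ n * (critF n).card := by rw [mul_pow]; ring

theorem upto (L : ℕ) : ∀ M : ℕ, ∃ n₀ : ℕ, ∀ n, n₀ ≤ n →
    M ^ n * (badF n L).card ≤ (critF n).card := by
  induction L with
  | zero =>
    intro M
    refine ⟨0, fun n _ => ?_⟩
    have : badF n 0 = ∅ := by
      unfold badF
      rw [Finset.filter_eq_empty_iff]
      rintro G _ ⟨_, l, h1, h2, _⟩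
      omega
    rw [this]; simp
  | succ L ih =>
    intro M
    by_cases hL : 3 ≤ L + 1
    · obtain ⟨n₁, h1⟩ := ih (2 * M)
      obtain ⟨n₂, h2⟩ := single (L + 1) hL (2 * M)
      refine ⟨max (max n₁ n₂) 1, fun n hn => ?_⟩
      have hn1 : n₁ ≤ n := le_trans (le_trans (le_max_left _ _) (le_max_left _ _)) hn
      have hn2 : n₂ ≤ n := le_trans (le_trans (le_max_right _ _) (le_max_left _ _)) hn
      have hn3 : 1 ≤ n := le_trans (le_max_right _ _) hn
      have e1 := h1 n hn1
      have e2 := h2 n hn2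
      have hsub : badF n (L + 1) ⊆ badF n L ∪
          univ.filter (fun G => Crit G ∧ ¬ HasCyc G (L + 1)) := by
        intro G hG
        simp only [badF, mem_filter, mem_univ, true_and, mem_union] at hG ⊢
        obtain ⟨hc, l, hl1, hl2, hl3⟩ := hG
        by_cases h : l ≤ L
        · exact Or.inl ⟨hc, l, hl1, h, hl3⟩
        · have : l = L + 1 := by omega
          subst this
          exact Or.inr ⟨hc, hl3⟩
      have hc := (Finset.card_le_card hsub).trans (Finset.card_union_le _ _)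
      have hset : {G : SimpleGraph (Fin n) | Crit G ∧ ¬ HasCyc G (L + 1)}.ncard =
          (univ.filter (fun G : SimpleGraph (Fin n) => Crit G ∧ ¬ HasCyc G (L + 1))).card := by
        rw [← Set.ncard_coe_finset]; congr 1; ext G; simp
      rw [hset] at e2
      have h2n : 2 ≤ 2 ^ n := by
        calc 2 = 2 ^ 1 := by norm_num
          _ ≤ 2 ^ n := Nat.pow_le_pow_right (by norm_num) hn3
      have key : 2 * (M ^ n * (badF n (L + 1)).card) ≤ 2 * (critF n).card := by
        calc 2 * (M ^ n * (badF n (L + 1)).card)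
            ≤ 2 ^ n * (M ^ n * (badF n (L + 1)).card) := Nat.mul_le_mul_right _ h2n
          _ = (2 * M) ^ n * (badF n (L + 1)).card := by rw [mul_pow]; ring
          _ ≤ (2 * M) ^ n * ((badF n L).card +
              (univ.filter (fun G : SimpleGraph (Fin n) =>
                Crit G ∧ ¬ HasCyc G (L + 1))).card) := Nat.mul_le_mul_left _ hc
          _ ≤ (critF n).card + (critF n).card := by
              rw [Nat.mul_add]; exact Nat.add_le_add e1 e2
          _ = 2 * (critF n).card := by ring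
      omega
    · obtain ⟨n₀, h0⟩ := ih M
      refine ⟨n₀, fun n hn => ?_⟩
      have : badF n (L + 1) = ∅ := by
        unfold badF
        rw [Finset.filter_eq_empty_iff]
        rintro G _ ⟨_, l, h1, h2, _⟩
        omega
      rw [this]; simp

theorem diag : ∃ C : ℕ → ℕ, Filter.Tendsto C Filter.atTop Filter.atTop ∧
    ∀ M : ℕ, ∃ n₀ : ℕ, ∀ n, n₀ ≤ n → 4 ≤ n ∧
      (6 * M) ^ n * (badF n (C n)).card ≤ (critF n).card := by
  choose N hN using fun L : ℕ => upto L (6 * L)
  let C : ℕ → ℕ := fun n => Nat.findGreatest (fun L => N L ≤ n) n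
  have hC : ∀ M n, N M ≤ n → M ≤ n → M ≤ C n ∧ N (C n) ≤ n := fun M n h1 h2 =>
    ⟨Nat.le_findGreatest h2 h1, Nat.findGreatest_spec (P := fun L => N L ≤ n) h2 h1⟩
  refine ⟨C, ?_, ?_⟩
  · rw [Filter.tendsto_atTop_atTop]
    intro b
    exact ⟨max (N b) b, fun n hn =>
      (hC b n (le_trans (le_max_left _ _) hn) (le_trans (le_max_right _ _) hn)).1⟩
  · intro M
    refine ⟨max (max (N M) M) 4, fun n hn => ?_⟩
    have h1 : N M ≤ n := le_trans (le_trans (le_max_left _ _) (le_max_left _ _)) hn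
    have h2 : M ≤ n := le_trans (le_trans (le_max_right _ _) (le_max_left _ _)) hn
    obtain ⟨h3, h4⟩ := hC M n h1 h2
    refine ⟨le_trans (le_max_right _ _) hn, ?_⟩
    refine le_trans (Nat.mul_le_mul_right _ ?_) (hN (C n) n h4)
    exact Nat.pow_le_pow_left (Nat.mul_le_mul_left 6 h3) n

theorem badF_closed {n L : ℕ} : ∀ G ∈ badF n L, ∀ H ∈ cls G, H ∈ badF n L := by
  intro G hG H ⟨φ⟩
  simp only [badF, mem_filter, mem_univ, true_and] at hG ⊢
  obtain ⟨hc, l, h1, h2, h3⟩ := hG
  exact ⟨hc.iso φ, l, h1, h2, fun h => h3 (h.iso φ.symm)⟩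

theorem critF_closed {n : ℕ} : ∀ G ∈ critF n, ∀ H ∈ cls G, H ∈ critF n := by
  intro G hG H ⟨φ⟩
  simp only [critF, mem_filter, mem_univ, true_and] at hG ⊢
  exact hG.iso φ

end Pool.Agent.AA27
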